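import Mathlib
import Pool.Agent.R384.NormL
import Pool.Agent.J6H2.TW.PB
import Pool.Agent.J6H2.TW.Pl

/-!
# The dimension of the Bloch–Kato Selmer groups of products of elliptic curves in every odd degree is
# at most the exponent of the conductor, over all `2`-extensions of `ℚ(√-7)` unramified outside `2`

`k = ℚ(√-7)` with ring of integers `ℤ[ω]`, `ω² = ω - 2`; `(2) = (ω) (1 - ω)`. We consider the curves
`E_{t,d} : y² = x (x + d a²) (x + d b²)`, `t = (a, b, c)`, `a² = b² + c²`, `a` and `d` prime to `2`,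
`ω² ∣ b`, `(1 - ω)² ∣ c`. For the triple `(1, ω², (1 - ω)²)` these are the curves
`y² = x³ + 3 (1 - ω) d x² + ω⁴ d² x`, with complex multiplication by `ℤ[ω]`.

Let `M / k` be a finite Galois extension of degree a power of `2`, unramified outside `2`, with any
Galois group, and let `K` be any field between `k` and `M`. Let `m = 2 i + 1`, let `E_1, ..., E_m` be
any curves of the family, and let `V = V_2(E_1) ⊗ ... ⊗ V_2(E_m) (-i)`, a direct factor of
`H^m(E_1 × ... × E_m, ℚ_2(i + 1))`.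

Theorem. The dimension of the Bloch–Kato Selmer group `H¹_f(K, V)` is at most
`∑ dim V / V^{I_w}`, the sum over the places `w` of `K` which do not divide `2`; `I_w` is the inertia
group. In particular the group is zero for all `K` if the `E_k` are the curves with complex
multiplication with `d = ± 1`.

The summands are the exponents of the conductor of `V` at the places `w` (the inertia groups act on
`V` through the tame quotient). The bound does not contain the degree of `K`, the units and the class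
numbers: it is the same for all fields of an infinite tower in which the places above the bad primes
are not decomposed, for example of a `ℤ_2`-extension in which they are finitely decomposed.

Proof. The decomposition groups at the places above `2` surject onto `Gal(M/k)`, for all `M`. After the
normalization of the cocycles at the places above `2`, a linear combination of more classes than the
bound is a cocycle which vanishes exactly on one inertia group above each place `w` and, in the right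
coordinates, on the decomposition groups above `2`. Its reduction modulo `2` (`Gal(ℚ̄/k)` acts trivially
on the lattice modulo `2`) would give a quadratic extension of `K` unramified outside `2` in which a
place above `2` splits.
-/

set_option autoImplicit false

namespace Pool.Agent.Results.MP_787500_nt.ConductorBound

open WeierstrassCurve
open scoped Classical

/-! ### The curves -/

/-- An algebraic closure of `ℚ`. -/
abbrev QBar : Type := AlgebraicClosure ℚ

/-- The ring of integers `ℤ[ω]`, `ω² = ω - 2`, of `ℚ(√-7)`. -/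
abbrev OK : Type := QuadraticAlgebra ℤ (-2) 1

/-- The element `ω`. -/
def om : OK := ⟨0, 1⟩

/-- The field `k = ℚ(w)`. It is `ℚ(√-7)` if `w² = w - 2`. -/
noncomputable abbrev K (w : QBar) : IntermediateField ℚ QBar := IntermediateField.adjoin ℚ {w}

/-- `w` as an element of `k`. -/
noncomputable def gen (w : QBar) : K w := ⟨w, IntermediateField.mem_adjoin_simple_self ℚ w⟩

/-- The element `a + b ω` of `ℤ[ω]` as an element of the field `L`, `w` being the image of `ω`. -/
def emb {L : Type} [Ring L] (w : L) (z : OK) : L := z.re + z.im * w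

/-- A triple of elements of `ℤ[ω]`. -/
structure Triple where
  (a b c : OK)

/-- The triple `(1, ω², (1 - ω)²)`. -/
def tCM : Triple := ⟨1, om ^ 2, (1 - om) ^ 2⟩

/-- The triples `(a, b, c)` such that `a² = b² + c²`, `a b c ≠ 0`, `a` is prime to `2`, `ω² ∣ b` and
`(1 - ω)² ∣ c`. -/
structure Triple.Adm (t : Triple) : Prop where
  pyth : t.a ^ 2 = t.b ^ 2 + t.c ^ 2
  ne : t.a * t.b * t.c ≠ 0
  odd : IsCoprime t.a 2
  two : om ^ 2 ∣ t.b ∧ (1 - om) ^ 2 ∣ t.c

/-- The curve `y² = x (x + d a²) (x + d b²)`. -/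
def curve {F : Type} [Field F] (d a b : F) : WeierstrassCurve F :=
  ⟨0, d * (a ^ 2 + b ^ 2), 0, d ^ 2 * a ^ 2 * b ^ 2, 0⟩

/-- The curve `E_{t,d} : y² = x (x + d a²) (x + d b²)` over `k`, `t = (a, b, c)`. -/
noncomputable def E (w : QBar) (t : Triple) (d : OK) : WeierstrassCurve (K w) :=
  curve (emb (gen w) d) (emb (gen w) t.a) (emb (gen w) t.b)

/-- The absolute Galois group of `k`. -/
abbrev Gal (w : QBar) : Type := QBar ≃ₐ[K w] QBar

/-- The group `E_{t,d}(ℚ̄)`. -/
abbrev Pts (w : QBar) (t : Triple) (d : OK) : Type := ((E w t d).toAffine.baseChange QBar).Point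

/-- The action of the Galois group on `E_{t,d}(ℚ̄)`. -/
noncomputable def act {w : QBar} {t : Triple} {d : OK} (σ : Gal w) : Pts w t d →+ Pts w t d :=
  Affine.Point.map (W' := (E w t d).toAffine) (S := K w) (F := QBar) (K := QBar) σ.toAlgHom

/-! ### The Tate modules -/

/-- The sequences `e 0` and `e 1` are elements of the `2`-adic Tate module of the abelian group `A`,
and they are a basis of it. -/
structure IsBasis {A : Type} [AddCommGroup A] (e : Fin 2 → ℕ → A) : Prop where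
  zero : ∀ i, e i 0 = 0
  double : ∀ i n, e i (n + 1) + e i (n + 1) = e i n
  span : ∀ (n : ℕ) (P : A), (2 ^ n : ℤ) • P = 0 → ∃ k : Fin 2 → ℤ, P = ∑ i, k i • e i n
  indep : ∀ (n : ℕ) (k : Fin 2 → ℤ), ∑ i, k i • e i n = 0 → ∀ i, (2 ^ n : ℤ) ∣ k i

/-- `M` is the matrix of the endomorphism `f` of the abelian group `A` on the basis `e` of the
`2`-adic Tate module. -/
def ActsBy {A : Type} [AddCommGroup A] (f : A →+ A) (e : Fin 2 → ℕ → A)
    (M : Matrix (Fin 2) (Fin 2) ℤ_[2]) : Prop :=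
  ∀ (n : ℕ) (k : Fin 2 → Fin 2 → ℤ), (∀ i j, (2 : ℤ_[2]) ^ n ∣ M i j - k i j) →
    ∀ j, f (e j n) = ∑ i, k i j • e i n

/-- The point `P` is zero, or its first coordinate `x` satisfies `|x + s| > 1 / 4`: in other words
`P` is in the kernel of the reduction for the coordinate `(x + s) / 4`. -/
def InKer (ι : QBar →ₐ[ℚ] PadicAlgCl 2) (s : QBar) {W : Affine QBar} : W.Point → Prop
  | .zero => True
  | .some x _ _ => 1 / 4 < ‖ι (x + s)‖

/-- `e 0`, `e 1` is a basis of the `2`-adic Tate module of `E_{t,d}`, `ρ` is the action of the Galois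
group on this basis, `e 0` is in the kernel of the reduction at the place `ι₁`, for the coordinate
`x / 4`, and `e 1` is in the kernel of the reduction at the place `ι₂`, for the coordinate
`(x + d a²) / 4`. -/
structure Frame {w : QBar} (ι₁ ι₂ : QBar →ₐ[ℚ] PadicAlgCl 2) (t : Triple) (d : OK)
    (e : Fin 2 → ℕ → Pts w t d) (ρ : Gal w →* Matrix (Fin 2) (Fin 2) ℤ_[2]) : Prop where
  basis : IsBasis e
  acts : ∀ σ, ActsBy (act σ) e (ρ σ)
  ker₁ : ∀ n, InKer ι₁ 0 (e 0 n)
  ker₂ : ∀ n, InKer ι₂ (emb w (d * t.a ^ 2)) (e 1 n)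

/-! ### The Galois groups -/

/-- The decomposition group of the place given by the embedding `ι` of `ℚ̄`. -/
def Dec {w : QBar} {p : ℕ} [Fact p.Prime] (ι : QBar →ₐ[ℚ] PadicAlgCl p) : Set (Gal w) :=
  {σ | ∃ τ : PadicAlgCl p ≃ₐ[ℚ_[p]] PadicAlgCl p, ∀ x, τ (ι x) = ι (σ x)}

/-- Its inertia group: the automorphisms which are trivial on the residue field. -/
def Inr {w : QBar} {p : ℕ} [Fact p.Prime] (ι : QBar →ₐ[ℚ] PadicAlgCl p) : Set (Gal w) :=
  {σ | ∃ τ : PadicAlgCl p ≃ₐ[ℚ_[p]] PadicAlgCl p, (∀ x, τ (ι x) = ι (σ x)) ∧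
    ∀ z : PadicAlgCl p, ‖z‖ ≤ 1 → ‖τ z - z‖ < 1}

/-- `N` is the Galois group of `ℚ̄ / M` for a finite Galois extension `M / k` whose degree is a power
of `2` and which is unramified outside `2`: `N` is a normal open subgroup of index a power of `2` and
contains the inertia groups of the odd primes. -/
structure TwoExtension {w : QBar} (N : Subgroup (Gal w)) : Prop where
  isOpen : IsOpen (N : Set (Gal w))
  normal : N.Normal
  index : ∃ a : ℕ, N.index = 2 ^ a
  unramified : ∀ (p : ℕ) [Fact p.Prime] (ι : QBar →ₐ[ℚ] PadicAlgCl p), p ≠ 2 →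
    ∀ σ ∈ (Inr ι : Set (Gal w)), σ ∈ N

/-! ### The Selmer groups -/

/-- The `2`-adic cyclotomic character. -/
noncomputable def cyc (w : QBar) : Gal w →* ℤ_[2]ˣ :=
  (cyclotomicCharacter QBar 2).comp (MulSemiringAction.toRingAut (Gal w) QBar)

/-- The action of the group `G` on `V_1 ⊗ ... ⊗ V_n ⊗ χ⁻ⁱ`, where `ρ k` is the action on the basis
`e 0`, `e 1` of `V_k`. The coordinate `α` is the coefficient of `e (α 1) ⊗ ... ⊗ e (α n)`. -/
noncomputable def tens {G : Type} [Group G] {n : ℕ} (ρ : Fin n → G →* Matrix (Fin 2) (Fin 2) ℤ_[2])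
    (χ : G →* ℤ_[2]ˣ) (i : ℕ) (σ : G) (v : (Fin n → Fin 2) → ℚ_[2]) : (Fin n → Fin 2) → ℚ_[2] :=
  fun α => ∑ β, ((((χ σ)⁻¹ ^ i : ℤ_[2]ˣ) * ∏ k, ρ k σ (α k) (β k) : ℤ_[2]) : ℚ_[2]) * v β

/-- `c` is a continuous cocycle of the subgroup `H` of `G` with values in `ℚ_2 ^ B`, where `σ` acts by
`A σ`. -/
structure IsCocycle {G B : Type} [Group G] [TopologicalSpace G] {H : Subgroup G}
    (A : G → (B → ℚ_[2]) → B → ℚ_[2]) (c : H → B → ℚ_[2]) : Prop where
  cont : Continuous c
  mul : ∀ σ τ : H, c (σ * τ) = c σ + A σ (c τ)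

/-- The restriction of the cocycle `c` of `H` to the elements of the subset `D` of `G` is the
coboundary of a vector `y` as far as the coordinates `α ∈ S` are concerned. -/
def TrivialOn {G B : Type} [Group G] {H : Subgroup G} (A : G → (B → ℚ_[2]) → B → ℚ_[2])
    (D : Set G) (S : Set B) (c : H → B → ℚ_[2]) : Prop :=
  ∃ y : B → ℚ_[2], ∀ σ : H, (σ : G) ∈ D → ∀ α ∈ S, c σ α = A σ y α - y α

/-- The number of the coordinates of `α` which are equal to `s`. -/
def count {n : ℕ} (α : Fin n → Fin 2) (s : Fin 2) : ℕ := (Finset.univ.filter fun k => α k = s).card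

/-- The Bloch–Kato conditions over the field `K` with the Galois group `H`, for
`V = V_1 ⊗ ... ⊗ V_n (-i)`, `n = 2 i + 1`: the class is trivial on the inertia groups of the places
prime to `2`; at the place `ι₁` it is trivial in `H¹(K_v, V / F)` where `F` is generated by the tensors
`e (α 1) ⊗ ... ⊗ e (α n)` with more than `i` factors `e 0`, and at the place `ι₂` the same with `e 1`
instead of `e 0`. (If `K` is contained in a `2`-extension of `k` unramified outside `2` then the places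
given by `ι₁` and `ι₂` are the only places of `K` above `ω` and `1 - ω`.) -/
structure IsSelmer {w : QBar} {H : Subgroup (Gal w)} (ι₁ ι₂ : QBar →ₐ[ℚ] PadicAlgCl 2) (i : ℕ)
    (A : Gal w → ((Fin (2 * i + 1) → Fin 2) → ℚ_[2]) → (Fin (2 * i + 1) → Fin 2) → ℚ_[2])
    (c : H → (Fin (2 * i + 1) → Fin 2) → ℚ_[2]) : Prop where
  odd : ∀ (p : ℕ) [Fact p.Prime] (ι : QBar →ₐ[ℚ] PadicAlgCl p), p ≠ 2 →
    TrivialOn A (Inr ι) Set.univ c
  two₁ : TrivialOn A (Dec ι₁) {α | count α 0 ≤ i} c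
  two₂ : TrivialOn A (Dec ι₂) {α | count α 1 ≤ i} c

/-- The dimension of the Selmer group over the field with the Galois group `H` is at most `D`: more
than `D` classes are linearly dependent. -/
def SelmerDimLE {w : QBar} (H : Subgroup (Gal w)) (ι₁ ι₂ : QBar →ₐ[ℚ] PadicAlgCl 2) (i : ℕ)
    (A : Gal w → ((Fin (2 * i + 1) → Fin 2) → ℚ_[2]) → (Fin (2 * i + 1) → Fin 2) → ℚ_[2])
    (D : ℕ) : Prop :=
  ∀ (m : ℕ) (c : Fin m → H → (Fin (2 * i + 1) → Fin 2) → ℚ_[2]),
    (∀ j, IsCocycle A (c j) ∧ IsSelmer ι₁ ι₂ i A (c j)) → D < m →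
    ∃ s : Fin m → ℚ_[2], s ≠ 0 ∧
      TrivialOn (H := H) A Set.univ Set.univ fun σ => ∑ j, s j • c j σ

/-! ### The odd places -/

/-- A place of `ℚ̄` prime to `2`, given by an embedding of `ℚ̄`. -/
structure OddPlace where
  p : ℕ
  [prime : Fact p.Prime]
  odd : p ≠ 2
  ι : QBar →ₐ[ℚ] PadicAlgCl p

attribute [instance] OddPlace.prime

/-- The action `A` is ramified only at the odd places `P 1, ..., P r` of the field `K` with the Galois
group `H`: the inertia group of every other place `x` acts trivially, or it is conjugate, by an element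
`g` of `H`, to the inertia group of one of the places `P k` (as it is if `x` and `P k` are above the
same place of `K`). -/
def Ramified {w : QBar} {B : Type} (H : Subgroup (Gal w)) (A : Gal w → (B → ℚ_[2]) → B → ℚ_[2])
    {r : ℕ} (P : Fin r → OddPlace) : Prop :=
  ∀ x : OddPlace, (∀ σ ∈ (Inr x.ι : Set (Gal w)), ∀ v, A σ v = v) ∨
    ∃ k, ∃ g ∈ H, ∀ σ : Gal w, σ ∈ (Inr x.ι : Set (Gal w)) ↔ g * σ * g⁻¹ ∈ (Inr (P k).ι : Set (Gal w))

/-- The codimension of the subspace of the vectors of `V = ℚ_2 ^ B` which are fixed by the inertia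
group of the place `x`. -/
noncomputable def codim {w : QBar} {B : Type} (A : Gal w → (B → ℚ_[2]) → B → ℚ_[2]) (x : OddPlace) :
    ℕ :=
  Module.finrank ℚ_[2] ((B → ℚ_[2]) ⧸
    Submodule.span ℚ_[2] {v : B → ℚ_[2] | ∀ σ ∈ (Inr x.ι : Set (Gal w)), A σ v = v})

/-! ### The proof -/

section proof

open Pool.Agent.Y676.IS (Cu some_congr)
open Pool.Agent.R384 (al be em LD ac Pt Rg sP Bs Acts gH)

variable {w : QBar} (hw : w ^ 2 = w - 2) {t : Triple} {d : OK}

lemma emb_eq (z : OK) : ((emb (gen w) z : K w) : QBar) = em hw z := by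
  unfold emb
  rw [Pool.Agent.R384.em_apply]
  push_cast
  rfl

lemma emb_eq' (z : OK) : emb w z = em hw z := by
  unfold emb
  rw [Pool.Agent.R384.em_apply]

lemma curve_eq : (E w t d).toAffine.baseChange QBar =
    Cu (al (em hw d) (em hw t.a) (em hw t.b)) (be (em hw d) (em hw t.a) (em hw t.b)) := by
  have h1 : ∀ z, algebraMap (K w) QBar (emb (gen w) z) = em hw z := emb_eq hw
  unfold E curve Cu al be WeierstrassCurve.Affine.baseChange WeierstrassCurve.toAffine
  ext
  · exact map_zero _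
  · show algebraMap (K w) QBar (emb (gen w) d * (emb (gen w) t.a ^ 2 + emb (gen w) t.b ^ 2)) = _
    rw [map_mul, map_add, map_pow, map_pow, h1, h1, h1]
  · exact map_zero _
  · show algebraMap (K w) QBar (emb (gen w) d ^ 2 * emb (gen w) t.a ^ 2 * emb (gen w) t.b ^ 2) = _
    rw [map_mul, map_mul, map_pow, map_pow, map_pow, h1, h1, h1]
  · exact map_zero _

/-- the points of equal curves -/
noncomputable def tr {W W' : Affine QBar} (h : W = W') : W.Point ≃+ W'.Point := by
  subst h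
  exact AddEquiv.refl _

lemma tr_some {W W' : Affine QBar} (h : W = W') {a b : QBar} (hab : W.Nonsingular a b) :
    tr h (.some a b hab) = .some a b (h ▸ hab) := by
  subst h
  rfl

lemma tr_act (h : LD (em hw d) (em hw t.a) (em hw t.b) (em hw t.c)) (σ : Gal w) (P : Pts w t d) :
    tr (curve_eq hw) (act σ P) = ac hw h σ (tr (curve_eq hw) P) := by
  rcases P with _ | ⟨a, b, hab⟩
  · show tr (curve_eq hw) (act σ 0) = ac hw h σ (tr (curve_eq hw) 0)
    simp only [map_zero]
  · rw [tr_some (curve_eq hw) hab]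
    exact tr_some (curve_eq hw) (a := σ.toAlgHom a) (b := σ.toAlgHom b)
      ((Affine.baseChange_nonsingular (E w t d).toAffine σ.toAlgHom.injective ..).mpr hab)

lemma d_ne {d : OK} (hd : IsCoprime d 2) : d ≠ 0 := by
  rintro rfl
  have h1 : IsUnit (2 : OK) := isCoprime_zero_left.1 hd
  rw [Pool.Agent.R384.unit_iff] at h1
  have h2 : Pool.Agent.R384.nn (2 : OK) = 4 := by
    have := Pool.Agent.R384.nn_int 2
    push_cast at this
    rw [this]
  rw [h2] at h1
  norm_num at h1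

lemma elliptic (ht : t.Adm) (hd : IsCoprime d 2) (hw : w ^ 2 = w - 2) : (E w t d).IsElliptic := by
  have hne : ∀ z : OK, z ≠ 0 → (emb (gen w) z : K w) ≠ 0 := by
    intro z hz h
    have h1 := emb_eq hw z
    rw [h] at h1
    exact hz (Pool.Agent.R384.em_inj hw h1.symm)
  have habc := ht.ne
  have ha : t.a ≠ 0 := fun h => habc (by rw [h]; ring)
  have hb : t.b ≠ 0 := fun h => habc (by rw [h]; ring)
  have hc : t.c ≠ 0 := fun h => habc (by rw [h]; ring)
  have hp : (emb (gen w) t.a : K w) ^ 2 = emb (gen w) t.b ^ 2 + emb (gen w) t.c ^ 2 := by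
    apply Subtype.ext
    push_cast
    rw [emb_eq hw, emb_eq hw, emb_eq hw, ← map_pow, ← map_pow, ← map_pow, ← map_add, ht.pyth]
  rw [WeierstrassCurve.isElliptic_iff, isUnit_iff_ne_zero]
  have e : (E w t d).Δ = 16 * emb (gen w) d ^ 6 * (emb (gen w) t.a * emb (gen w) t.b *
      emb (gen w) t.c) ^ 4 := by
    simp only [E, curve, WeierstrassCurve.Δ, WeierstrassCurve.b₂, WeierstrassCurve.b₄,
      WeierstrassCurve.b₆, WeierstrassCurve.b₈]
    generalize emb (gen w) d = d' at *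
    generalize emb (gen w) t.a = a at *
    generalize emb (gen w) t.b = b at *
    generalize emb (gen w) t.c = c at *
    linear_combination (16 * d' ^ 6 * a ^ 4 * b ^ 4 * (a ^ 2 - b ^ 2 + c ^ 2)) * hp
  rw [e]
  exact mul_ne_zero (mul_ne_zero (by norm_num) (pow_ne_zero _ (hne _ (d_ne hd)))) (pow_ne_zero _
    (mul_ne_zero (mul_ne_zero (hne _ ha) (hne _ hb)) (hne _ hc)))

lemma ld (ht : t.Adm) (hd : IsCoprime d 2) : LD (em hw d) (em hw t.a) (em hw t.b) (em hw t.c) := by
  have habc := ht.ne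
  refine ⟨Pool.Agent.R384.em_ne hw (d_ne hd), Pool.Agent.R384.em_ne hw fun h => habc (by rw [h]; ring),
    Pool.Agent.R384.em_ne hw fun h => habc (by rw [h]; ring),
    Pool.Agent.R384.em_ne hw fun h => habc (by rw [h]; ring), ?_⟩
  rw [← map_pow, ← map_pow, ← map_pow, ← map_add, ht.pyth]

lemma inKer_iff {ι : QBar →ₐ[ℚ] PadicAlgCl 2} (P : Pts w t d)
    (h : Rg (ι : QBar →+* PadicAlgCl 2) (tr (curve_eq hw) P)) : InKer ι 0 P := by
  rcases P with _ | ⟨x, y, hxy⟩
  · trivial
  · rw [tr_some (curve_eq hw) hxy] at h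
    show 1 / 4 < ‖ι (x + 0)‖
    rw [add_zero]
    exact h

lemma inKer_iff' {ι : QBar →ₐ[ℚ] PadicAlgCl 2}
    (h' : LD (em hw d) (em hw t.a) (em hw t.b) (em hw t.c)) (P : Pts w t d)
    (h : Rg (ι : QBar →+* PadicAlgCl 2) (sP h' (tr (curve_eq hw) P))) :
    InKer ι (emb w (d * t.a ^ 2)) P := by
  rcases P with _ | ⟨x, y, hxy⟩
  · trivial
  · rw [tr_some (curve_eq hw) hxy] at h
    show 1 / 4 < ‖ι (x + emb w (d * t.a ^ 2))‖
    rw [emb_eq' hw, map_mul, map_pow]
    exact h

/-- the frame of a curve -/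
lemma exists_frame (ht : t.Adm) (hd : IsCoprime d 2) {r I : QBar} (hr : r ^ 2 = em hw d)
    (hI : I ^ 2 = -1) {ι₁ ι₂ : QBar →ₐ[ℚ] PadicAlgCl 2} (h₁ : ‖ι₁ w‖ < 1) (h₂ : ‖ι₂ (1 - w)‖ < 1) :
    ∃ (e : Fin 2 → ℕ → Pts w t d) (ρ : Gal w →* Matrix (Fin 2) (Fin 2) ℤ_[2]),
      Frame ι₁ ι₂ t d e ρ ∧ Pool.Agent.R384.Rho hw t.a t.b t.c r I ι₁ ι₂ ρ := by
  have hld := ld hw ht hd
  obtain ⟨e, ρ, hb, ha, hk1, hk2, hρ⟩ := Pool.Agent.R384.exists_rho hw hld hr hI
    (Pool.Agent.R384.unit_norm hw hd ι₁) (Pool.Agent.R384.unit_norm hw hd ι₂)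
    (Pool.Agent.R384.unit_norm hw ht.odd ι₁) (Pool.Agent.R384.unit_norm hw ht.odd ι₂)
    (Pool.Agent.R384.quarter hw ht.two.1 h₁) (Pool.Agent.R384.quarter' hw ht.two.2 h₂)
  set T := tr (curve_eq hw (t := t) (d := d)) with hT
  refine ⟨fun s n => T.symm (e s n), ρ, ⟨⟨?_, ?_, ?_, ?_⟩, ?_, ?_, ?_⟩, hρ⟩
  · intro s
    show T.symm (e s 0) = 0
    rw [hb.zero, map_zero]
  · intro s n
    show T.symm (e s (n + 1)) + T.symm (e s (n + 1)) = T.symm (e s n)
    rw [← map_add, hb.dbl]
  · intro n P hP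
    have h1 : (2 ^ n : ℤ) • T P = 0 := by rw [← map_zsmul, hP, map_zero]
    obtain ⟨k, hk⟩ := hb.span n _ h1
    refine ⟨k, ?_⟩
    apply T.injective
    rw [map_sum, hk]
    refine Finset.sum_congr rfl fun s _ => ?_
    rw [map_zsmul, T.apply_symm_apply]
  · intro n k hk
    apply hb.indep n k
    have h1 := congrArg T hk
    rw [map_sum, map_zero] at h1
    rw [← h1]
    refine Finset.sum_congr rfl fun s _ => ?_
    rw [map_zsmul, T.apply_symm_apply]
  · intro σ n k hk s
    show act σ (T.symm (e s n)) = ∑ i, k i s • T.symm (e i n)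
    apply T.injective
    rw [hT, tr_act hw hld σ, ← hT, T.apply_symm_apply, ha σ n k hk s, map_sum]
    refine Finset.sum_congr rfl fun i _ => ?_
    rw [map_zsmul, T.apply_symm_apply]
  · intro n
    apply inKer_iff hw
    rw [← hT, T.apply_symm_apply]
    exact hk1 n
  · intro n
    apply inKer_iff' hw hld
    rw [← hT, T.apply_symm_apply]
    exact hk2 n

end proof

lemma tCM_adm : tCM.Adm := by
  refine ⟨?_, ?_, isCoprime_one_left, dvd_rfl, dvd_rfl⟩
  · show (1 : OK) ^ 2 = (om ^ 2) ^ 2 + ((1 - om) ^ 2) ^ 2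
    have h : om * (1 - om) = (2 : OK) := Pool.Agent.R384.om_mul
    linear_combination (2 * om * (om - 1)) * h
  · show (1 : OK) * om ^ 2 * (1 - om) ^ 2 ≠ 0
    rw [one_mul, ← mul_pow, show om * (1 - om) = (2 : OK) from Pool.Agent.R384.om_mul]
    intro h
    have h1 : ((4 : ℤ) : OK) = 0 := by
      rw [← h]
      norm_num
    have h2 := congrArg QuadraticAlgebra.re h1
    rw [QuadraticAlgebra.re_intCast] at h2
    norm_num at h2

/-- the inertia group of another place above the same place -/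
lemma inr_conj {w : QBar} {p : ℕ} [Fact p.Prime] {ι ι' : QBar →ₐ[ℚ] PadicAlgCl p} {g : Gal w}
    (h : ∀ z, ι' z = ι (g z)) (σ : Gal w) :
    σ ∈ (Inr ι' : Set (Gal w)) ↔ g * σ * g⁻¹ ∈ (Inr ι : Set (Gal w)) := by
  have h4 : ∀ z, g (g⁻¹ z) = z := fun z => g.apply_symm_apply z
  have h5 : ∀ z, g⁻¹ (g z) = z := fun z => g.symm_apply_apply z
  constructor
  · rintro ⟨θ, h1, h2⟩
    refine ⟨θ, fun z => ?_, h2⟩
    have h3 := h1 (g⁻¹ z)
    rw [h, h, h4] at h3
    exact h3
  · rintro ⟨θ, h1, h2⟩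
    refine ⟨θ, fun z => ?_, h2⟩
    have h3 := h1 (g z)
    rw [h, h, h3]
    show ι (g (σ (g⁻¹ (g z)))) = _
    rw [h5]

/-- representatives of the places above a prime number -/
lemma reps_p {w : QBar} (hw : w ^ 2 = w - 2) {H : Subgroup (Gal w)}
    (hH : IsOpen (H : Set (Gal w))) {p : ℕ} (hp : p.Prime) (h2 : p ≠ 2) :
    ∃ F : Finset OddPlace, ∀ x : OddPlace, x.p = p → ∃ y ∈ F, ∃ g ∈ H, ∀ σ : Gal w,
      σ ∈ (Inr x.ι : Set (Gal w)) ↔ g * σ * g⁻¹ ∈ (Inr y.ι : Set (Gal w)) := by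
  have : Fact p.Prime := ⟨hp⟩
  obtain ⟨r, ι, h⟩ := Pool.Agent.J6H2.TW.exists_reps hw hH p
  refine ⟨Finset.univ.image fun k => (⟨p, h2, ι k⟩ : OddPlace), ?_⟩
  rintro ⟨p', hp', ι'⟩ hpp
  have hpp' : p' = p := hpp
  subst hpp'
  obtain ⟨k, g, hg, hk⟩ := h ι'
  exact ⟨⟨p', h2, ι k⟩, Finset.mem_image_of_mem _ (Finset.mem_univ k), g, hg, inr_conj hk⟩

/-- there are finitely many ramified places -/
lemma exists_list {w : QBar} (hw : w ^ 2 = w - 2) {H : Subgroup (Gal w)}
    (hH : IsOpen (H : Set (Gal w))) {B : Type} {A : Gal w → (B → ℚ_[2]) → B → ℚ_[2]} {n : ℤ}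
    (hn : n ≠ 0) (hA : ∀ x : OddPlace, ¬ (x.p : ℤ) ∣ n →
      ∀ σ ∈ (Inr x.ι : Set (Gal w)), ∀ v, A σ v = v) :
    ∃ (r : ℕ) (P : Fin r → OddPlace), Ramified H A P := by
  have hF : ∀ p : ℕ, ∃ F : Finset OddPlace, ∀ x : OddPlace, x.p = p →
      ∃ y ∈ F, ∃ g ∈ H, ∀ σ : Gal w,
        σ ∈ (Inr x.ι : Set (Gal w)) ↔ g * σ * g⁻¹ ∈ (Inr y.ι : Set (Gal w)) := by
    intro p
    by_cases h : p.Prime ∧ p ≠ 2
    · exact reps_p hw hH h.1 h.2
    · refine ⟨∅, fun x hx => absurd ⟨?_, ?_⟩ h⟩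
      · rw [← hx]; exact x.prime.out
      · rw [← hx]; exact x.odd
  choose F hF using hF
  set L : Finset OddPlace := n.natAbs.primeFactors.biUnion F with hL
  refine ⟨L.card, fun k => (L.equivFin.symm k : OddPlace), fun x => ?_⟩
  by_cases h : (x.p : ℤ) ∣ n
  · right
    obtain ⟨y, hy, g, hg, hx⟩ := hF x.p x rfl
    have hyL : y ∈ L := by
      rw [hL, Finset.mem_biUnion]
      refine ⟨x.p, ?_, hy⟩
      rw [Nat.mem_primeFactors]
      exact ⟨x.prime.out, Int.natCast_dvd.1 h, Int.natAbs_ne_zero.2 hn⟩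
    have key : ∀ z : OddPlace, z = y → ∃ g ∈ H, ∀ σ : Gal w,
        σ ∈ (Inr x.ι : Set (Gal w)) ↔ g * σ * g⁻¹ ∈ (Inr z.ι : Set (Gal w)) := by
      rintro z rfl
      exact ⟨g, hg, hx⟩
    refine ⟨L.equivFin ⟨y, hyL⟩, key _ ?_⟩
    show (L.equivFin.symm (L.equivFin ⟨y, hyL⟩) : OddPlace) = y
    rw [Equiv.symm_apply_apply]
  · exact Or.inl (hA x h)

theorem result :
    ∀ (i : ℕ) (t : Fin (2 * i + 1) → Triple) (d : Fin (2 * i + 1) → OK),
      (∀ k, (t k).Adm ∧ IsCoprime (d k) 2) → ∀ w : QBar, w ^ 2 = w - 2 →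
      ∀ N H : Subgroup (Gal w), TwoExtension N → N ≤ H →
      ∀ ι₁ ι₂ : QBar →ₐ[ℚ] PadicAlgCl 2, ‖ι₁ w‖ < 1 → ‖ι₂ (1 - w)‖ < 1 →
        ∃ (e : ∀ k, Fin 2 → ℕ → Pts w (t k) (d k))
          (ρ : Fin (2 * i + 1) → Gal w →* Matrix (Fin 2) (Fin 2) ℤ_[2]),
          (∀ k, Frame ι₁ ι₂ (t k) (d k) (e k) (ρ k)) ∧
          (∃ (r : ℕ) (P : Fin r → OddPlace), Ramified H (tens ρ (cyc w) i) P) ∧
          (∀ (r : ℕ) (P : Fin r → OddPlace), Ramified H (tens ρ (cyc w) i) P →
            SelmerDimLE H ι₁ ι₂ i (tens ρ (cyc w) i) (∑ k, codim (tens ρ (cyc w) i) (P k))) ∧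
          ((∀ k, t k = tCM ∧ (d k = 1 ∨ d k = -1)) →
            SelmerDimLE H ι₁ ι₂ i (tens ρ (cyc w) i) 0) := by
  intro i t d ht w hw N H hN hNH ι₁ ι₂ h₁ h₂
  have hrk : ∀ k, ∃ r : QBar, r ^ 2 = Pool.Agent.R384.em hw (d k) := fun k =>
    IsAlgClosed.exists_pow_nat_eq _ (by norm_num)
  choose rk hrk using hrk
  obtain ⟨I, hI⟩ : ∃ I : QBar, I ^ 2 = -1 := IsAlgClosed.exists_pow_nat_eq _ (by norm_num)
  have hfr := fun k => exists_frame hw (ht k).1 (ht k).2 (hrk k) hI h₁ h₂
  choose e ρ hfr hρ using hfr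
  have hHo : IsOpen (H : Set (Gal w)) := Subgroup.isOpen_mono hNH hN.isOpen
  have hA : ∀ (σ : Gal w) (v : (Fin (2 * i + 1) → Fin 2) → ℚ_[2]),
      tens ρ (cyc w) i σ v = Pool.Agent.R384.tR ρ (Pool.Agent.R384.cyc w) i σ v := by
    intro σ v
    funext α
    rw [Pool.Agent.R384.tR_apply]
    rfl
  -- the places where the parameters are units are unramified
  have hunr : ∀ x : OddPlace, (∀ k, ¬ ‖Pool.Agent.R384.em (Pool.Agent.R384.iw hw x.ι)
      (d k * ((t k).a * (t k).b * (t k).c))‖ < 1) →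
      ∀ σ ∈ (Inr x.ι : Set (Gal w)), ∀ v, tens ρ (cyc w) i σ v = v := by
    intro x hx σ hσ v
    rw [hA]
    exact Pool.Agent.J6H2.TW.prod_unr hw hρ hrk x.ι x.odd hx σ hσ v
  -- the bound
  have hbound : ∀ (r : ℕ) (P : Fin r → OddPlace), Ramified H (tens ρ (cyc w) i) P →
      SelmerDimLE H ι₁ ι₂ i (tens ρ (cyc w) i) (∑ k, codim (tens ρ (cyc w) i) (P k)) := by
    intro r P hP m c hc hm
    have hcod : ∀ k, Module.finrank ℚ_[2] (((Fin (2 * i + 1) → Fin 2) → ℚ_[2]) ⧸
        Pool.Agent.J6H2.TW.fixd (Pool.Agent.J6H2.TW.res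
          (Pool.Agent.R384.tR ρ (Pool.Agent.R384.cyc w) i) H)
          {σ : H | (σ : Gal w) ∈ (Inr (P k).ι : Set (Gal w))}) =
        codim (tens ρ (cyc w) i) (P k) := by
      intro k
      have h3 : Pool.Agent.J6H2.TW.fixd (Pool.Agent.J6H2.TW.res
          (Pool.Agent.R384.tR ρ (Pool.Agent.R384.cyc w) i) H)
          {σ : H | (σ : Gal w) ∈ (Inr (P k).ι : Set (Gal w))} =
          Submodule.span ℚ_[2] {v | ∀ σ ∈ (Inr (P k).ι : Set (Gal w)),
            tens ρ (cyc w) i σ v = v} := by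
        apply le_antisymm
        · intro v hv
          apply Submodule.subset_span
          intro σ hσ
          rw [hA]
          exact hv ⟨σ, hNH (hN.unramified (P k).p (P k).ι (P k).odd σ hσ)⟩ hσ
        · rw [Submodule.span_le]
          intro v hv σ hσ
          have h4 := hv (σ : Gal w) hσ
          rw [hA] at h4
          exact h4
      rw [h3]
      rfl
    obtain ⟨s, hs, y, hy⟩ := Pool.Agent.J6H2.TW.prod_bound hw hI h₁ h₂ rfl hρ hrk
      (fun k => d_ne (ht k).2) hNH hN.normal hN.index hN.isOpen hN.unramified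
      (J := fun k => (Inr (P k).ι : Set (Gal w)))
      (by
        intro p hp ι hp2
        rcases hP ⟨p, hp2, ι⟩ with h3 | ⟨k, g, hg, h3⟩
        · left
          intro σ hσ v
          rw [← hA]
          exact h3 σ hσ v
        · right
          refine ⟨k, g⁻¹, H.inv_mem hg, fun σ hσ => ?_⟩
          rw [inv_inv]
          exact (h3 σ).1 hσ)
      (fun j => (hc j).1.cont) (fun j σ τ => by rw [(hc j).1.mul, hA])
      (fun j p _ ι hp => by
        obtain ⟨y, hy⟩ := (hc j).2.odd p ι hp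
        refine ⟨y, fun σ hσ => ?_⟩
        funext α
        rw [hy σ hσ α (Set.mem_univ _), hA]
        rfl)
      (fun j k => by
        obtain ⟨y, hy⟩ := (hc j).2.odd (P k).p (P k).ι (P k).odd
        refine ⟨y, fun σ hσ => ?_⟩
        funext α
        rw [hy σ hσ α (Set.mem_univ _), hA]
        rfl)
      (fun j => by
        obtain ⟨y, hy⟩ := (hc j).2.two₁
        refine ⟨y, fun σ hσ α hα => ?_⟩
        rw [hy σ hσ α hα, hA]
        rfl)
      (fun j => by
        obtain ⟨y, hy⟩ := (hc j).2.two₂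
        refine ⟨y, fun σ hσ α hα => ?_⟩
        rw [hy σ hσ α hα, hA]
        rfl)
      (by rw [Finset.sum_congr rfl fun k _ => hcod k]; exact hm)
    refine ⟨s, hs, y, fun σ _ α _ => ?_⟩
    show (∑ j, s j • c j σ) α = _
    rw [hy σ, hA]
    rfl
  refine ⟨e, ρ, hfr, ?_, hbound, ?_⟩
  · -- the list of the ramified places
    set z : OK := ∏ k, d k * ((t k).a * (t k).b * (t k).c) with hz
    have hz0 : z ≠ 0 := Finset.prod_ne_zero_iff.2 fun k _ =>
      mul_ne_zero (d_ne (ht k).2) (ht k).1.ne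
    have hn0 : Pool.Agent.R384.nn z ≠ 0 := by
      intro h
      exact hz0 (Pool.Agent.R384.nn_zero_iff.1 h)
    refine exists_list hw hHo hn0 fun x hx => hunr x fun k hlt => hx ?_
    set em := Pool.Agent.R384.em (Pool.Agent.R384.iw hw x.ι) with hem
    have h3 : ‖em (z * Pool.Agent.R384.cj z)‖ < 1 := by
      rw [map_mul, norm_mul, hz, map_prod, ← Finset.mul_prod_erase _ _ (Finset.mem_univ k), norm_mul]
      have n1 := Pool.Agent.R384.em_le (Pool.Agent.R384.iw hw x.ι) (Pool.Agent.R384.cj z)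
      have n2 : ‖∏ k ∈ Finset.univ.erase k, em (d k * ((t k).a * (t k).b * (t k).c))‖ ≤ 1 := by
        rw [← map_prod]
        exact Pool.Agent.R384.em_le _ _
      rw [← hz]
      calc _ ≤ ‖em (d k * ((t k).a * (t k).b * (t k).c))‖ * 1 * 1 := by gcongr
        _ < 1 := by rw [mul_one, mul_one]; exact hlt
    rw [Pool.Agent.R384.mul_cj, map_intCast] at h3
    have h4 : ((Pool.Agent.R384.nn z : ℤ) : PadicAlgCl x.p) =
        algebraMap ℚ_[x.p] (PadicAlgCl x.p) ((Pool.Agent.R384.nn z : ℤ) : ℚ_[x.p]) := by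
      rw [map_intCast]
    rw [h4, PadicAlgCl.norm_extends, Padic.norm_intCast_lt_one_iff] at h3
    exact h3
  · intro hCM
    have hP : Ramified H (tens ρ (cyc w) i) (fun k : Fin 0 => k.elim0) := by
      intro x
      left
      apply hunr x
      intro k
      obtain ⟨h3, h4⟩ := hCM k
      have h5 : (1 : OK) * om ^ 2 * (1 - om) ^ 2 = 2 ^ 2 := by
        rw [one_mul, ← mul_pow, show om * (1 - om) = (2 : OK) from Pool.Agent.R384.om_mul]
      have h6 : ‖Pool.Agent.R384.em (Pool.Agent.R384.iw hw x.ι) (tCM.a * tCM.b * tCM.c)‖ = 1 := by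
        show ‖Pool.Agent.R384.em (Pool.Agent.R384.iw hw x.ι) (1 * om ^ 2 * (1 - om) ^ 2)‖ = 1
        rw [h5, map_pow, map_ofNat, norm_pow, Pool.Agent.Y715.Lc.norm_two_odd x.odd, one_pow]
      rw [h3, map_mul, norm_mul, h6, mul_one, not_lt]
      rcases h4 with h4 | h4
      · rw [h4, map_one, norm_one]
      · rw [h4, map_neg, map_one, norm_neg, norm_one]
    have h5 := hbound 0 _ hP
    simpa using h5

end Pool.Agent.Results.MP_787500_nt.ConductorBound
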