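import Mathlib
import Pool.Agent.J6H9.QT.Grp
import Pool.Agent.J6H9.QT.Fam

/-!
# The conjecture of Bloch and Kato on the Abel–Jacobi map for diagonal quartic threefolds, quartic
# double solids and plane quartics over `K = ℚ(i)`, `p = 2`

`K` is a number field with an isomorphism `e` of the ring `ℤ[i]` with its ring of integers.  `D` runs
through the squarefree Gaussian integers `D = 1 mod 2 + 2 i` of norm `5 mod 8` that are not a product
`D = d d'` of two such numbers `d, d' ≠ 1`, `= 1 mod 2 + 2 i`, each of which is a square modulo all the primes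
dividing the other one.  They have positive density among all the Gaussian integers.

For `n ≤ 5`, `n + r = 2 c + 3` and `a_i`, `b_j` not zero let `X` be the hypersurface
`∑ a_i x_i⁴ + ∑ b_j y_j² = 0` in the weighted projective space `P(1ⁿ, 2ʳ)`, of dimension `2 c + 1`.  So `X` is a
plane quartic for `(n, r) = (3, 0)`, a quartic threefold for `(5, 0)`, the double cover of `P³` that is
ramified in a quartic surface for `(4, 1)`; for `r ≥ 2` it is birational to a bundle of quadrics over `P^(n-1)`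
whose discriminant is a quartic.

* The numbers of points of `X` over all the finite extensions of the residue fields of all the places
  not dividing `2 ∏ a_i ∏ b_j` are those of `H^(2c+1)(X) = ⊕_s H¹(E_{δ_s})(-c)` together with one class of
  type `(j, j)` for every `j ≤ 2 c + 1`; here `E_δ : y² = x³ + δ x`, `s` runs through the functions from the
  indices `i` to the exponents `{1, 2, 3}` with `#{s = 1}, #{s = 3} = 2, 0` or `3, 1`, and
  `δ_s = (-1)^#{s = 3} ∏ a_i^(s_i) (∏ b_j)²`.
* Let `D` be in the family, let the `a_i` be in the group generated by `i`, `D` and the fourth powers, and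
  the `b_j` in the group generated by `i`, `D` and the squares; and suppose that the classes of all the `δ_s`
  modulo fourth powers are `± D`, `± D³`, `- D²` or units.  Then `E(K) ⊗ ℚ_2` and `H¹_f(K, V_2 E)` are zero
  for all the curves `E = E_{δ_s}`.  Examples are listed in the theorem.
* If `D` has exactly one prime factor of norm `5 mod 8` and its other prime factors have norm `1 mod 16`
  (for example if `D` is a prime; every prime number `5 mod 8` is the norm of such a prime), then this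
  holds for all the `a_i`, `b_j` in these groups.

By the first point and by Faltings, `V = H^(2c+1)(X, ℚ_2(c + 1))` is the direct sum of the `V_2 E_{δ_s}` and the
intermediate Jacobian `J` of `X` is isogenous to the product of the `E_{δ_s}`; and
`CH^(c+1)(X)_0 ⊗ ℚ_2 = J(K) ⊗ ℚ_2` for the threefolds (Bloch–Murre, Bloch–Srinivas); this is not
formalized.  So `CH^(c+1)(X)_0 ⊗ ℚ_2 = 0 = H¹_f(K, V)`: the conjecture holds for `p = 2` and all the motives
`(X, e, c + 1)`, `e` any idempotent.

`H1f 2 W` (`Pool.Agent.Y667.BKP.H1f`, by helper667) is the group of the classes of the continuous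
cocycles of the absolute Galois group with values in `V_2 W = T_2 W ⊗ ℚ_2` whose restriction to the
completion at every place is in the image of the Kummer map; this is the condition of Bloch and Kato.
The descents by `1 + i` use the library of helper699 (the graph of the residue symbols, the density of the
family), helper682 and helper715.
-/

set_option autoImplicit false

namespace Pool.Agent.Results.MP_787500_nt.DiagonalQuartics

open NumberField IsDedekindDomain WeierstrassCurve
open Pool.Agent.Y667.BKP (H1f)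
open scoped Classical

/-- The curve `E_δ : y² = x³ + δ x`. -/
def curve {F : Type} [Field F] (δ : F) : WeierstrassCurve F := ⟨0, 0, 0, δ, 0⟩

/-- The solutions, not all zero, of `∑ a i x i ^ 4 + ∑ b j y j ^ 2 = 0` in the field `F`. -/
def solutions {n r : ℕ} {F : Type} [Field F] (a : Fin n → F) (b : Fin r → F) :
    Set ((Fin n → F) × (Fin r → F)) :=
  {x | x ≠ 0 ∧ ∑ i, a i * x.1 i ^ 4 + ∑ j, b j * x.2 j ^ 2 = 0}

/-- The number of the indices `i` with `s i = j`; the exponent of the index `i` is `s i + 1`. -/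
def count {n : ℕ} (s : Fin n → Fin 3) (j : Fin 3) : ℕ := (Finset.univ.filter fun i => s i = j).card

/-- The `s` such that the exponent `1` occurs twice and `3` does not, or `1` three times and `3` once. -/
def types (n : ℕ) : Finset (Fin n → Fin 3) :=
  Finset.univ.filter fun s => (count s 0 = 2 ∧ count s 2 = 0) ∨ (count s 0 = 3 ∧ count s 2 = 1)

/-- `δ_s = (-1)^#{s = 2} ∏ a i ^ (s i + 1) (∏ b j)²`. -/
def twist {n r : ℕ} {R : Type} [CommRing R] (a : Fin n → R) (b : Fin r → R) (s : Fin n → Fin 3) : R :=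
  (-1) ^ count s 2 * (∏ i, a i ^ ((s i).val + 1)) * (∏ j, b j) ^ 2

/-- `X` has the dimension `n + r - 2 = 2 c + 1`.  Let `β s` and its complex conjugate be the eigenvalues of
the Frobenius of the curve `y² = x³ + δ_s x` over the residue field of `v`, which has `N` elements.  Then
for all the fields `F` with `N ^ t` elements that contain the residue field (`f` is the reduction) the
number of the nonzero solutions in `F` of the equation of `X` is
`(#F - 1) (1 + #F + ... + #F^(2 c + 1) - ∑ ((N^c β s)^t + (N^c conj (β s))^t))`, the sum over the `s` in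
`types n`. -/
def Decomposition {K : Type} [Field K] [NumberField K] {n r : ℕ} (c : ℕ) (a : Fin n → 𝓞 K)
    (b : Fin r → 𝓞 K) (v : HeightOneSpectrum (𝓞 K)) : Prop :=
  ∃ β : (Fin n → Fin 3) → ℂ,
    (∀ s, β s * (starRingEnd ℂ) (β s) = Ideal.absNorm v.asIdeal ∧
      (Nat.card {P : (𝓞 K ⧸ v.asIdeal) × (𝓞 K ⧸ v.asIdeal) //
        P.2 ^ 2 = P.1 ^ 3 + Ideal.Quotient.mk v.asIdeal (twist a b s) * P.1} : ℂ) =
          Ideal.absNorm v.asIdeal - (β s + (starRingEnd ℂ) (β s))) ∧
    ∀ (F : Type) [Field F] [Finite F] (f : 𝓞 K →+* F) (t : ℕ), RingHom.ker f = v.asIdeal →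
      Nat.card F = Ideal.absNorm v.asIdeal ^ t →
      ((solutions (fun i => f (a i)) (fun j => f (b j))).ncard : ℂ) = (Nat.card F - 1) *
        (∑ i ∈ Finset.range (2 * c + 2), (Nat.card F : ℂ) ^ i -
          ∑ s ∈ types n,
            (((Ideal.absNorm v.asIdeal : ℂ) ^ c * β s) ^ t +
              ((Ideal.absNorm v.asIdeal : ℂ) ^ c * (starRingEnd ℂ) (β s)) ^ t))

/-- `W` is an elliptic curve, and `W(F) ⊗ ℚ_2` and `H¹_f(F, V_2 W)` are zero. -/
def BothZero {F : Type} [Field F] [NumberField F] (W : WeierstrassCurve F) : Prop :=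
  W.IsElliptic ∧ (∀ x : TensorProduct ℤ W.toAffine.Point ℚ_[2], x = 0) ∧ ∀ x : H1f 2 W, x = 0

/-- The cohomology of `X` decomposes at all the places not dividing `2 ∏ a i ∏ b j`, and both sides of
the conjecture are zero for all the curves `E_{δ_s}`. -/
def Settled (K : Type) [Field K] [NumberField K] {n r : ℕ} (c : ℕ) (a : Fin n → 𝓞 K)
    (b : Fin r → 𝓞 K) : Prop :=
  (∀ v : HeightOneSpectrum (𝓞 K), (2 : 𝓞 K) ∉ v.asIdeal → (∀ i, a i ∉ v.asIdeal) →
    (∀ j, b j ∉ v.asIdeal) → Decomposition c a b v) ∧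
  ∀ s ∈ types n, BothZero (curve ((twist a b s : 𝓞 K) : K))

/-- `a` is `I ^ E * D ^ M` times the `k`-th power of a nonzero fraction. -/
def InClass {R : Type} [CommRing R] (k : ℕ) (I D a : R) (E M : ℕ) : Prop :=
  ∃ y z : R, y ≠ 0 ∧ z ≠ 0 ∧ a * y ^ k = I ^ E * D ^ M * z ^ k

/-- `i ^ E * D ^ M` is, up to fourth powers, a unit, `± D`, `± D³` or `- D²`. -/
def GoodClass (E M : ℕ) : Prop := 4 ∣ M ∨ (2 ∣ E ∧ M % 2 = 1) ∨ (E % 4 = 2 ∧ M % 4 = 2)

instance (E M : ℕ) : Decidable (GoodClass E M) := by unfold GoodClass; infer_instance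

/-- The exponent of `i` in `δ_s`, if `a i` is in the class of `i ^ E i * D ^ M i` and `b j` in the class of
`i ^ F j * D ^ L j`. -/
def exponentI {n r : ℕ} (E : Fin n → ℕ) (F : Fin r → ℕ) (s : Fin n → Fin 3) : ℕ :=
  2 * count s 2 + ∑ i, E i * ((s i).val + 1) + 2 * ∑ j, F j

/-- The exponent of `D` in `δ_s`. -/
def exponentD {n r : ℕ} (M : Fin n → ℕ) (L : Fin r → ℕ) (s : Fin n → Fin 3) : ℕ :=
  ∑ i, M i * ((s i).val + 1) + 2 * ∑ j, L j

/-- `D = 1 mod 2 + 2 i` is squarefree, its norm is `5 mod 8`, and it does not split into two factors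
`d, d' = 1 mod 2 + 2 i`, both not `1`, that are squares modulo the primes dividing the other one. -/
def InFamily (D : GaussianInt) : Prop :=
  (⟨2, 2⟩ : GaussianInt) ∣ D - 1 ∧ Squarefree D ∧ D.norm % 8 = 5 ∧
    ∀ d d' : GaussianInt, (⟨2, 2⟩ : GaussianInt) ∣ d - 1 → (⟨2, 2⟩ : GaussianInt) ∣ d' - 1 →
      D = d * d' → (∀ π : GaussianInt, Prime π → π ∣ d → ∃ x, π ∣ d' - x ^ 2) →
        (∀ π : GaussianInt, Prime π → π ∣ d' → ∃ x, π ∣ d - x ^ 2) → d = 1 ∨ d' = 1

/-- Moreover the norms of the prime factors of `D` are `1 mod 16`, except for exactly one of them, whose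
norm is `5 mod 8`. -/
def Strong (D : GaussianInt) : Prop :=
  InFamily D ∧ (∀ π : GaussianInt, Prime π → π ∣ D → π.norm % 8 = 5 ∨ π.norm % 16 = 1) ∧
    ∀ π π' : GaussianInt, Prime π → Prime π' → π ∣ D → π' ∣ D → π.norm % 8 = 5 →
      π'.norm % 8 = 5 → Associated π π'

lemma types_eq (n : ℕ) : types n = Pool.Agent.J6H9.QT.Ty n := by
  ext s
  simp [types, Pool.Agent.J6H9.QT.Ty, Pool.Agent.J6H9.QT.IsTy, count, Pool.Agent.J6H9.QT.nb]

section

variable {K : Type} [Field K] [NumberField K] (e : GaussianInt ≃+* 𝓞 K)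

theorem settled {D : GaussianInt} (hD : InFamily D) {n r c : ℕ} (hn : n ≤ 5)
    (hr : n + r = 2 * c + 3) {a : Fin n → 𝓞 K} {b : Fin r → 𝓞 K} {E M : Fin n → ℕ}
    {F L : Fin r → ℕ} (ha : ∀ i, InClass 4 (e ⟨0, 1⟩) (e D) (a i) (E i) (M i))
    (hb : ∀ j, InClass 2 (e ⟨0, 1⟩) (e D) (b j) (F j) (L j))
    (h : (∀ s ∈ types n, GoodClass (exponentI E F s) (exponentD M L s)) ∨ Strong D) :
    Settled K c a b := by
  refine ⟨fun v h2 h3 h4 => ?_, fun s hs => ?_⟩
  · have hI : (e ⟨0, 1⟩ : 𝓞 K) ^ 2 = -1 := by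
      rw [← map_pow]
      have : ((⟨0, 1⟩ : GaussianInt) ^ 2) = -1 := by decide
      rw [this, map_neg, map_one]
    have := Pool.Agent.J6H9.QT.decAt hn hr hI a b v h2 h3 h4
    unfold Pool.Agent.J6H9.QT.DecAt at this
    rw [← types_eq] at this
    exact this
  · refine Pool.Agent.J6H9.QT.bz_grp e (Pool.Agent.J6H9.QT.good_iff.2 hD) (E := E) (M := M)
      (F := F) (L := L) ha hb ?_
    rcases h with h | h
    · exact Or.inl (h s hs)
    · exact Or.inr (Pool.Agent.J6H9.QT.str_of h)

end

/-- **The theorem.** -/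
theorem result (K : Type) [Field K] [NumberField K] (e : GaussianInt ≃+* 𝓞 K) :
    -- the family has positive density
    (∃ c : ℝ, 0 < c ∧ ∃ X₀ : ℕ, ∀ X : ℕ, X₀ ≤ X →
      c * X ≤ ({D : GaussianInt | D.norm ≤ X ∧ InFamily D}.ncard : ℝ)) ∧
    (∀ p : ℕ, p.Prime → p % 8 = 5 → ∃ D : GaussianInt, D.norm = p ∧ Strong D) ∧
    ∀ D : GaussianInt, InFamily D →
      -- all the coefficients in the group generated by `i` and `D`, with the condition on the twists
      (∀ n r c : ℕ, n ≤ 5 → n + r = 2 * c + 3 → ∀ (a : Fin n → 𝓞 K) (b : Fin r → 𝓞 K)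
        (E M : Fin n → ℕ) (F L : Fin r → ℕ),
        (∀ i, InClass 4 (e ⟨0, 1⟩) (e D) (a i) (E i) (M i)) →
        (∀ j, InClass 2 (e ⟨0, 1⟩) (e D) (b j) (F j) (L j)) →
        (∀ s ∈ types n, GoodClass (exponentI E F s) (exponentD M L s)) ∨ Strong D →
          Settled K c a b) ∧
      -- plane quartics
      Settled K 0 ![1, -1, e D] ![] ∧ Settled K 0 ![1, e D, e D ^ 3] ![] ∧
      -- quartic double solids
      Settled K 1 ![1, 1, e D, e D ^ 3] ![1] ∧ Settled K 1 ![1, 1, 1, e D] ![e D] ∧
      -- quartic threefolds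
      Settled K 1 ![1, 1, 1, e D, e D ^ 3] ![] ∧ Settled K 1 ![1, e D, e D, e D, e D ^ 2] ![] ∧
      Settled K 1 ![1, -1, e D, e D ^ 2, -e D ^ 2] ![] ∧
      Settled K 1 ![1, e D, -e D, e D ^ 3, -e D ^ 3] ![] := by
  have hI : (e ⟨0, 1⟩ : 𝓞 K) ^ 2 = -1 := by
    rw [← map_pow]
    have : ((⟨0, 1⟩ : GaussianInt) ^ 2) = -1 := by decide
    rw [this, map_neg, map_one]
  refine ⟨Pool.Agent.J6H9.QT.fm_density, fun p hp h5 => Pool.Agent.J6H9.QT.exists_sf hp h5,
    fun D hD => ⟨fun n r c hn hr a b E M F L ha hb h => settled e hD hn hr ha hb h, ?_⟩⟩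
  refine ⟨?_, ?_, ?_, ?_, ?_, ?_, ?_, ?_⟩
  · refine settled e hD (E := ![0, 2, 0]) (M := ![0, 0, 1]) (F := ![]) (L := ![]) (by norm_num)
      (by norm_num) ?_ (fun j => j.elim0) (Or.inl (by decide +kernel))
    intro i
    fin_cases i <;> exact ⟨1, 1, one_ne_zero, one_ne_zero, by simp [hI]⟩
  · refine settled e hD (E := ![0, 0, 0]) (M := ![0, 1, 3]) (F := ![]) (L := ![]) (by norm_num)
      (by norm_num) ?_ (fun j => j.elim0) (Or.inl (by decide +kernel))
    intro i
    fin_cases i <;> exact ⟨1, 1, one_ne_zero, one_ne_zero, by simp [hI]⟩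
  · refine settled e hD (E := ![0, 0, 0, 0]) (M := ![0, 0, 1, 3]) (F := ![0]) (L := ![0])
      (by norm_num) (by norm_num) ?_ ?_ (Or.inl (by decide +kernel))
    · intro i
      fin_cases i <;> exact ⟨1, 1, one_ne_zero, one_ne_zero, by simp [hI]⟩
    · intro i
      fin_cases i; exact ⟨1, 1, one_ne_zero, one_ne_zero, by simp [hI]⟩
  · refine settled e hD (E := ![0, 0, 0, 0]) (M := ![0, 0, 0, 1]) (F := ![0]) (L := ![1])
      (by norm_num) (by norm_num) ?_ ?_ (Or.inl (by decide +kernel))
    · intro i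
      fin_cases i <;> exact ⟨1, 1, one_ne_zero, one_ne_zero, by simp [hI]⟩
    · intro i
      fin_cases i; exact ⟨1, 1, one_ne_zero, one_ne_zero, by simp [hI]⟩
  · refine settled e hD (E := ![0, 0, 0, 0, 0]) (M := ![0, 0, 0, 1, 3]) (F := ![]) (L := ![])
      (by norm_num) (by norm_num) ?_ (fun j => j.elim0) (Or.inl (by decide +kernel))
    intro i
    fin_cases i <;> exact ⟨1, 1, one_ne_zero, one_ne_zero, by simp [hI]⟩
  · refine settled e hD (E := ![0, 0, 0, 0, 0]) (M := ![0, 1, 1, 1, 2]) (F := ![]) (L := ![])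
      (by norm_num) (by norm_num) ?_ (fun j => j.elim0) (Or.inl (by decide +kernel))
    intro i
    fin_cases i <;> exact ⟨1, 1, one_ne_zero, one_ne_zero, by simp [hI]⟩
  · refine settled e hD (E := ![0, 2, 0, 0, 2]) (M := ![0, 0, 1, 2, 2]) (F := ![]) (L := ![])
      (by norm_num) (by norm_num) ?_ (fun j => j.elim0) (Or.inl (by decide +kernel))
    intro i
    fin_cases i <;> exact ⟨1, 1, one_ne_zero, one_ne_zero, by simp [hI]⟩
  · refine settled e hD (E := ![0, 0, 2, 0, 2]) (M := ![0, 1, 1, 3, 3]) (F := ![]) (L := ![])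
      (by norm_num) (by norm_num) ?_ (fun j => j.elim0) (Or.inl (by decide +kernel))
    intro i
    fin_cases i <;> exact ⟨1, 1, one_ne_zero, one_ne_zero, by simp [hI]⟩

end Pool.Agent.Results.MP_787500_nt.DiagonalQuartics
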