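import Mathlib
import Pool.Agent.J6H22.BK.Fin

/-!
# The conjecture of Bloch and Kato on the Abel–Jacobi map with BOTH SIDES NONZERO, for infinitely many
# elliptic curves and cubic threefolds over `K = ℚ(√-3)`, at the ramified prime `p = 3` of bad reduction

`K` is the field of the third roots of unity and `E_D` is the curve `y² + D y = x³` (a cubic twist of
`y² + y = x³`; if `a b c = D`, then it is the Jacobian of `a x³ + b y³ + c z³ = 0`).

* Let `D = π₁ ^ a π₂ ^ b`, `a, b ∈ {1, 2}`, with two different primes `π₁`, `π₂` of `𝓞 K`, such that `D = 1`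
  modulo `3` and the norm of `D` is not `1` modulo `9`.  If `π₁ ^ a X³ + π₂ ^ b Y³ = Z³` has a solution
  with `X Y Z ≠ 0` in `K`, then `E_D(K)` has rank `2`, `Ш(E_D / K)[3^∞] = 0`, and the Kummer map is an
  isomorphism `E_D(K) ⊗ ℚ_3 → H¹_f(K, V_3 E_D)` of spaces of dimension `2`.
* For `n = 3`: `X_D` is the cubic threefold `x₀³ + x₁³ + D (x₂³ + x₃³ + x₄³) = 0`.  At all the places
  not dividing `3 D` the numbers of points of `X_D` over all the finite extensions of the residue field are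
  those of `H³(X_D) = ⊕ H¹(E_{δ_i})(-1)`, `i = 0, …, 4`, `δ_i = ∏ a_j · a_i`; and for all the five
  curves the Kummer map `E_{δ_i}(K) ⊗ ℚ_3 → H¹_f(K, V_3 E_{δ_i})` is an isomorphism.  The dimensions are
  `0, 0, 2, 2, 2`.
* The hypothesis holds if `D = p q` with different rational primes `p`, `q` congruent to `2` modulo `3` whose
  sum is a cube.  There are at least `c X ^ (2 / 3) / log ² X` such `D ≤ X`.

For the curves this is the conjecture for `i = 0` (`E_D` is its own Picard variety, and the Abel–Jacobi map is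
the Kummer map). For the threefolds, by Faltings `V = H³(X_D, ℚ_3(2))` is the direct sum of the
`V_3 E_{δ_i}`, the intermediate Jacobian `J` is isogenous to the product of the `E_{δ_i}`, and
`CH²(X_D)_0 ⊗ ℚ_3 = J(K) ⊗ ℚ_3` (Bloch–Murre): both sides of the conjecture for `i = 1` have dimension `6`.
This identification is not formalized.

`H1f p W` is the group of the classes of the continuous cocycles of the absolute Galois group with values
in `V_p W = T_p W ⊗ ℚ_p` such that for all `n` the image of `p ^ (-n)` times the class in `H¹(F, W[p^∞])` is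
in the `p^∞`-Selmer group, that is, becomes zero in `H¹(F_v, W)` at all places `v`.  (At `v` this means that
the class is in the image of `W(F_v) ⊗ ℚ_p`, a closed subspace; this is the condition of Bloch and Kato.)

The proof. The Selmer group of `√-3` of `E_D` embeds into `𝔽_3 ^ ω(D)`, where `ω(D) = 2` is the number of
prime divisors of `D` (start library: Y696/XL, R419/KF, R419/KL); a solution of the cubic equation gives
a point of infinite order; so the rank is `2`, the points generate the Selmer group and `Ш[3^∞] = 0` (start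
library: R419/MX).  New: the isomorphism `W(F) ⊗ ℚ_p = H¹_f(F, V_p W)` for all elliptic curves with
`Ш(W / F)[p^∞] = 0` (`J6H22/BK/Abs`, `Abs2`, `Ell`), the points (`Inf`), and the family.  Its
infinitude is Goldbach's conjecture for almost all the cubes `(6 i + 4)³`, with the expected number of
representations (start library: W93/PG, TH935/GF, R459, TH212/PL).  The decomposition of the
threefolds is from the start library (N883/FG).
-/

set_option autoImplicit false

namespace Pool.Agent.Results.MP_787500_nt.NonzeroCubicTwists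

open NumberField IsDedekindDomain WeierstrassCurve TensorProduct
open Pool.Agent.TH841.SH.D (Pt act Gal)
open Pool.Agent.TH841.NF.D (Sha IsShaCoc)
open scoped Classical

section general

variable {F : Type} [Field F] [NumberField F]

/-- The action of the absolute Galois group on the points over the algebraic closure. -/
noncomputable def conj (W : WeierstrassCurve F) (σ : Gal F) (P : Pt W (AlgebraicClosure F)) :
    Pt W (AlgebraicClosure F) := act W σ.toAlgHom P

/-- The rational Tate module `V_p(W) = T_p(W) ⊗ ℚ_p`: the sequences `x₀, x₁, …` of points of `W` over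
the algebraic closure, of `p`-power order, with `p xₙ₊₁ = xₙ` (`xₙ` is the class of `p⁻ⁿ x` in
`V_p(W) / T_p(W) = W[p ^ ∞]`). -/
def IsTate (p : ℕ) (W : WeierstrassCurve F) (x : ℕ → Pt W (AlgebraicClosure F)) : Prop :=
  ∀ n, p • x (n + 1) = x n ∧ ∃ m : ℕ, (p ^ m : ℕ) • x n = 0

/-- The functions on the absolute Galois group with values in the sequences of points. -/
def Cochain (W : WeierstrassCurve F) : Type := Gal F → ℕ → Pt W (AlgebraicClosure F)

/-- The pointwise addition. -/
noncomputable instance Cochain.group (W : WeierstrassCurve F) : AddCommGroup (Cochain W) :=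
  @Pi.addCommGroup (Gal F) (fun _ => ℕ → Pt W (AlgebraicClosure F)) (fun _ => Pi.addCommGroup)

/-- `c` is a Selmer cocycle: a continuous cocycle with values in `V_p(W)` such that for all `n` the
class of `σ ↦ (c σ)ₙ` (the image of `p⁻ⁿ c` in the cohomology of `W`) is trivial over the completions of
`F` at all places (`IsShaCoc`: a continuous cocycle which becomes a coboundary over the completions). -/
def IsSelmer (p : ℕ) (W : WeierstrassCurve F) (c : Cochain W) : Prop :=
  (∀ n, IsShaCoc W (fun σ => c σ n)) ∧ ∀ σ, IsTate p W (c σ)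

/-- `c` is a coboundary `σ ↦ σ x - x`, `x ∈ V_p(W)`. -/
def IsCoboundary (p : ℕ) (W : WeierstrassCurve F) (c : Cochain W) : Prop :=
  ∃ x, IsTate p W x ∧ ∀ (σ : Gal F) (n : ℕ), c σ n = conj W σ (x n) - x n

section
variable (p : ℕ) (W : WeierstrassCurve F)

lemma isSelmer_zero : IsSelmer p W 0 :=
  (Pool.Agent.J6H22.BK.SelC p (Pool.Agent.J6H22.BK.shS W)).zero_mem'

lemma isSelmer_add {c d : Cochain W} (hc : IsSelmer p W c) (hd : IsSelmer p W d) :
    IsSelmer p W (c + d) :=
  (Pool.Agent.J6H22.BK.SelC p (Pool.Agent.J6H22.BK.shS W)).add_mem' hc hd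

lemma isSelmer_neg {c : Cochain W} (hc : IsSelmer p W c) : IsSelmer p W (-c) :=
  (Pool.Agent.J6H22.BK.SelC p (Pool.Agent.J6H22.BK.shS W)).neg_mem' hc

omit [NumberField F] in
lemma isCoboundary_zero : IsCoboundary p W 0 :=
  (Pool.Agent.J6H22.BK.CobC (Pool.Agent.J6H22.BK.ga W) p).zero_mem'

omit [NumberField F] in
lemma isCoboundary_add {c d : Cochain W} (hc : IsCoboundary p W c) (hd : IsCoboundary p W d) :
    IsCoboundary p W (c + d) :=
  (Pool.Agent.J6H22.BK.CobC (Pool.Agent.J6H22.BK.ga W) p).add_mem' hc hd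

omit [NumberField F] in
lemma isCoboundary_neg {c : Cochain W} (hc : IsCoboundary p W c) : IsCoboundary p W (-c) :=
  (Pool.Agent.J6H22.BK.CobC (Pool.Agent.J6H22.BK.ga W) p).neg_mem' hc

end

/-- The group of the Selmer cocycles. -/
def selmer (p : ℕ) (W : WeierstrassCurve F) : AddSubgroup (Cochain W) where
  carrier := {c | IsSelmer p W c}
  zero_mem' := isSelmer_zero p W
  add_mem' := isSelmer_add p W
  neg_mem' := isSelmer_neg p W

/-- The group of the coboundaries. -/
def coboundaries (p : ℕ) (W : WeierstrassCurve F) : AddSubgroup (Cochain W) where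
  carrier := {c | IsCoboundary p W c}
  zero_mem' := isCoboundary_zero p W
  add_mem' := isCoboundary_add p W
  neg_mem' := isCoboundary_neg p W

/-- The Bloch–Kato Selmer group `H¹_f(F, V_p(W))`. -/
def H1f (p : ℕ) (W : WeierstrassCurve F) : Type :=
  selmer p W ⧸ (coboundaries p W).addSubgroupOf (selmer p W)

/-- The group law of `H¹_f(F, V_p(W))`. -/
noncomputable instance H1f.group (p : ℕ) (W : WeierstrassCurve F) : AddCommGroup (H1f p W) :=
  @QuotientAddGroup.Quotient.addCommGroup (selmer p W) _ ((coboundaries p W).addSubgroupOf (selmer p W))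

/-- The class of a Selmer cocycle in `H¹_f(F, V_p(W))`. -/
noncomputable def toH1f (p : ℕ) (W : WeierstrassCurve F) (c : selmer p W) : H1f p W :=
  QuotientAddGroup.mk c

/-- `c` is the cocycle `z p^(-k) (σ Qₙ - Qₙ)ₙ` with values in `V_p(W)`. (If `Q₀` is a rational point and
`p Qₙ₊₁ = Qₙ`, then `(σ Qₙ - Qₙ)ₙ` is the Kummer cocycle of `Q₀`; its `n`-th term has order dividing
`p ^ n`, and on such points the `p`-adic integer `z` acts as the natural number `z.appr n`, which is
congruent to `z` modulo `p ^ n`.) -/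
def IsMultipleOfKummer (p : ℕ) [Fact p.Prime] (W : WeierstrassCurve F)
    (Q : ℕ → Pt W (AlgebraicClosure F)) (z : ℤ_[p]) (k : ℕ) (c : Cochain W) : Prop :=
  ∀ (σ : Gal F) (n : ℕ), c σ n = z.appr (n + k) • (conj W σ (Q (n + k)) - Q (n + k))

/-- `j` is the inclusion of the rational points. -/
def IsInclusion (W : WeierstrassCurve F) (j : W.toAffine.Point →+ Pt W (AlgebraicClosure F)) : Prop :=
  ∀ (x y : F) (h : W.toAffine.Nonsingular x y), ∃ h', j (.some x y h) =
    (Affine.Point.some (algebraMap F (AlgebraicClosure F) x)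
      (algebraMap F (AlgebraicClosure F) y) h' : Pt W (AlgebraicClosure F))

/-- `Q₀` is the rational point `P` and `p Qₙ₊₁ = Qₙ`. -/
def IsDivision (p : ℕ) (W : WeierstrassCurve F) (j : W.toAffine.Point →+ Pt W (AlgebraicClosure F))
    (P : W.toAffine.Point) (Q : ℕ → Pt W (AlgebraicClosure F)) : Prop :=
  Q 0 = j P ∧ ∀ n, p • Q (n + 1) = Q n

/-- The element `P ⊗ (z / p ^ k)` of `W(F) ⊗ ℚ_p`. -/
noncomputable def tensor (p : ℕ) [Fact p.Prime] (W : WeierstrassCurve F) (P : W.toAffine.Point)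
    (z : ℤ_[p]) (k : ℕ) : W.toAffine.Point ⊗[ℤ] ℚ_[p] :=
  P ⊗ₜ ((z : ℚ_[p]) / (p : ℚ_[p]) ^ k)

/-- `φ` is the Kummer map: it sends `P ⊗ (z / p ^ k)` to the class of `z p^(-k) (σ Qₙ - Qₙ)ₙ`, for all
`P ∈ W(F)`, `z ∈ ℤ_p`, `k` and all the sequences of points with `Q₀ = P` and `p Qₙ₊₁ = Qₙ`. -/
def IsKummerMap (p : ℕ) [Fact p.Prime] (W : WeierstrassCurve F)
    (j : W.toAffine.Point →+ Pt W (AlgebraicClosure F))
    (φ : W.toAffine.Point ⊗[ℤ] ℚ_[p] → H1f p W) : Prop :=
  ∀ P z k Q, IsDivision p W j P Q → ∃ c : selmer p W, IsMultipleOfKummer p W Q z k c.1 ∧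
    φ (tensor p W P z k) = toH1f p W c

/-- The Kummer map `W(F) ⊗ ℚ_p → H¹_f(F, V_p(W))` is an isomorphism. -/
def BlochKato (p : ℕ) [Fact p.Prime] (W : WeierstrassCurve F) : Prop :=
  ∃ j : W.toAffine.Point →+ Pt W (AlgebraicClosure F), IsInclusion W j ∧
    ∃ φ : W.toAffine.Point ⊗[ℤ] ℚ_[p] ≃+ H1f p W, IsKummerMap p W j φ

/-- `W` is an elliptic curve, `W(F)` is finitely generated of rank `r`, the `3`-primary part of `Ш(W / F)`
is trivial, and the Kummer map `W(F) ⊗ ℚ_3 → H¹_f(F, V_3(W))` is an isomorphism (so that both sides have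
dimension `r`). -/
def Conclusion (W : WeierstrassCurve F) (r : ℕ) : Prop :=
  W.IsElliptic ∧ Module.Finite ℤ W.toAffine.Point ∧ Module.finrank ℤ W.toAffine.Point = r ∧
    (∀ (n : ℕ) (x : Sha W), 3 ^ n • x = 0 → x = 0) ∧
    @BlochKato F _ _ 3 Nat.fact_prime_three W

end general

/-- The curve `E_D : y² + D y = x³`. -/
def curve {F : Type} [Field F] (D : F) : WeierstrassCurve F := ⟨0, 0, D, 0, 0⟩

/-- The solutions, not all zero, of `∑ a i x i ^ 3 = 0` in the field `F`. -/
def solutions {m : ℕ} {F : Type} [Field F] (a : Fin m → F) : Set (Fin m → F) :=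
  {x | x ≠ 0 ∧ ∑ i, a i * x i ^ 3 = 0}

/-- `δ_i = (∏ a j) * a i`. -/
def twist {R : Type} [CommRing R] (a : Fin 5 → R) (i : Fin 5) : R := (∏ j, a j) * a i

/-- Let `β i` and its complex conjugate be the eigenvalues of the Frobenius of the curve `y² + δ_i y = x³`
over the residue field of `v`, which has `N` elements.  Then for all the fields `F` with `N ^ r` elements
that contain the residue field (`f` is the reduction) the number of the nonzero solutions in `F` of the
equation `∑ a i x i ^ 3 = 0` of the threefold is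
`(#F - 1) (1 + #F + #F ^ 2 + #F ^ 3 - ∑ ((N β i)^r + (N conj (β i))^r))`. -/
def Decomposition {K : Type} [Field K] [NumberField K] (a : Fin 5 → 𝓞 K)
    (v : HeightOneSpectrum (𝓞 K)) : Prop :=
  ∃ β : Fin 5 → ℂ,
    (∀ i, β i * (starRingEnd ℂ) (β i) = Ideal.absNorm v.asIdeal ∧
      (Nat.card {P : (𝓞 K ⧸ v.asIdeal) × (𝓞 K ⧸ v.asIdeal) //
        P.2 ^ 2 + Ideal.Quotient.mk v.asIdeal (twist a i) * P.2 = P.1 ^ 3} : ℂ) =
          Ideal.absNorm v.asIdeal - (β i + (starRingEnd ℂ) (β i))) ∧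
    ∀ (F : Type) [Field F] [Finite F] (f : 𝓞 K →+* F) (r : ℕ), RingHom.ker f = v.asIdeal →
      Nat.card F = Ideal.absNorm v.asIdeal ^ r →
      ((solutions fun i => f (a i)).ncard : ℂ) = (Nat.card F - 1) *
        (∑ i ∈ Finset.range 4, (Nat.card F : ℂ) ^ i -
          ∑ i : Fin 5, (((Ideal.absNorm v.asIdeal : ℂ) * β i) ^ r +
            ((Ideal.absNorm v.asIdeal : ℂ) * (starRingEnd ℂ) (β i)) ^ r))

variable {K : Type} [Field K] [NumberField K]

/-- The coefficients of the threefold `X_D : x₀³ + x₁³ + D (x₂³ + x₃³ + x₄³) = 0`. -/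
def threefold (D : 𝓞 K) : Fin 5 → 𝓞 K := ![1, 1, D, D, D]

/-- The conjecture for `E_D`, with both sides of dimension `2`; the decomposition of the cohomology of `X_D`
at all the places not dividing `3 D`; and the conjecture for its five curves, with both sides of
dimension `0, 0, 2, 2, 2`. -/
def Settled (D : 𝓞 K) : Prop :=
  Conclusion (curve (D : K)) 2 ∧
  (∀ v : HeightOneSpectrum (𝓞 K), (3 : 𝓞 K) ∉ v.asIdeal → D ∉ v.asIdeal →
    Decomposition (threefold D) v) ∧
  ∀ i : Fin 5, Conclusion (curve ((twist (threefold D) i : 𝓞 K) : K)) (if i < 2 then 0 else 2)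

lemma blochKato_of {p : ℕ} [Fact p.Prime] {W : WeierstrassCurve K}
    (h : Pool.Agent.J6H22.BK.BKIso p W) : BlochKato p W := by
  obtain ⟨j, hj, φ, hφ⟩ := h
  exact ⟨j, hj, φ, fun P z k Q hQ => hφ P z k Q hQ.1 hQ.2⟩

lemma conclusion_of {D z : K} (hD : D ≠ 0) (hz : z ^ 2 + z + 1 = 0) {r : ℕ}
    (h : Pool.Agent.J6H22.BK.Con (curve D) r) : Conclusion (curve D) r :=
  ⟨h.1, h.2.1, h.2.2.1, h.2.2.2, blochKato_of (Pool.Agent.J6H22.BK.iso_of hD hz h)⟩

lemma settled_of [IsCyclotomicExtension {3} ℚ K] {D : 𝓞 K} (hD : D ≠ 0)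
    (h : Pool.Agent.J6H22.BK.Concl (D : K)) : Settled D := by
  obtain ⟨ω, hω⟩ := Pool.Agent.R419.KL.ex_root K
  have c0 : ∀ x : 𝓞 K, x ≠ 0 → (x : K) ≠ 0 := fun x hx h => hx (RingOfIntegers.ext (by rw [h]; rfl))
  obtain ⟨h1, h2⟩ := Pool.Agent.J6H22.BK.three hD h
  have ht : ∀ i : Fin 5, Pool.Agent.N883.DQ.Dt (threefold D) {i} = twist (threefold D) i := by
    intro i
    unfold Pool.Agent.N883.DQ.Dt twist
    rw [Finset.prod_singleton]
  refine ⟨conclusion_of (c0 D hD) hω (Pool.Agent.J6H22.BK.con_two (c0 D hD) h), fun v h3 hv => ?_,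
    fun i => ?_⟩
  · obtain ⟨β, b1, b2⟩ := h1 v h3 hv
    refine ⟨fun i => β {i}, fun i => ?_, fun F _ _ f r hf hF => ?_⟩
    · have := b1 {i}
      rw [show Pool.Agent.N883.DQ.Dt ![1, 1, D, D, D] {i} = twist (threefold D) i from ht i] at this
      exact this
    · refine (b2 F f r hf hF).trans ?_
      rw [Finset.powersetCard_one, Finset.sum_map]
      rw [pow_one]
      rfl
  · rw [← ht i]
    refine conclusion_of ?_ hω (h2 i)
    apply c0
    unfold Pool.Agent.N883.DQ.Dt
    rw [Finset.prod_singleton]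
    have h0 : ∀ j : Fin 5, (![1, 1, D, D, D] : Fin 5 → 𝓞 K) j ≠ 0 := by
      intro j
      fin_cases j
      · exact one_ne_zero
      · exact one_ne_zero
      · exact hD
      · exact hD
      · exact hD
    exact mul_ne_zero (Finset.prod_ne_zero_iff.2 fun j _ => h0 j) (h0 i)

theorem result (K : Type) [Field K] [NumberField K] [IsCyclotomicExtension {3} ℚ K] :
    (∀ π₁ π₂ : 𝓞 K, Prime π₁ → Prime π₂ → ¬ Associated π₁ π₂ →
      ∀ a b : ℕ, (a = 1 ∨ a = 2) → (b = 1 ∨ b = 2) →
      (3 : 𝓞 K) ∣ π₁ ^ a * π₂ ^ b - 1 → ¬ (9 : ℤ) ∣ Algebra.norm ℤ (π₁ ^ a * π₂ ^ b) - 1 →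
      (∃ X Y Z : K, X ≠ 0 ∧ Y ≠ 0 ∧ Z ≠ 0 ∧
        (π₁ : K) ^ a * X ^ 3 + (π₂ : K) ^ b * Y ^ 3 = Z ^ 3) →
      Settled (π₁ ^ a * π₂ ^ b)) ∧
    (∀ p q z : ℕ, p.Prime → q.Prime → p % 3 = 2 → q % 3 = 2 → p ≠ q → p + q = z ^ 3 →
      Settled ((p * q : ℕ) : 𝓞 K)) ∧
    ∃ c : ℝ, 0 < c ∧ ∃ X₀ : ℕ, ∀ X : ℕ, X₀ ≤ X →
      c * ((X : ℝ) ^ (2 / 3 : ℝ) / Real.log X ^ 2) ≤
        ({D : ℕ | D ≤ X ∧ ∃ p q z : ℕ, p.Prime ∧ q.Prime ∧ p % 3 = 2 ∧ q % 3 = 2 ∧ p ≠ q ∧
          p + q = z ^ 3 ∧ D = p * q}.ncard : ℝ) := by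
  refine ⟨fun π₁ π₂ h1 h2 h12 a b ha hb h3 h9 hX => ?_, fun p q z hp hq hp3 hq3 hne h => ?_,
    Pool.Agent.J6H22.Gold.many⟩
  · obtain ⟨X, Y, Z, hX, hY, hZ, h⟩ := hX
    have hD : π₁ ^ a * π₂ ^ b ≠ 0 := mul_ne_zero (pow_ne_zero _ h1.ne_zero) (pow_ne_zero _ h2.ne_zero)
    apply settled_of hD
    have := Pool.Agent.J6H22.BK.gen h1 h2 h12 ha hb h3 h9 hX hY hZ h
    have e : ((π₁ ^ a * π₂ ^ b : 𝓞 K) : K) = (π₁ : K) ^ a * (π₂ : K) ^ b := by
      push_cast
      rfl
    rw [e]
    exact this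
  · exact settled_of (Nat.cast_ne_zero.2 (mul_ne_zero hp.ne_zero hq.ne_zero))
      (Pool.Agent.J6H22.BK.pq hp hq hp3 hq3 hne h)

end Pool.Agent.Results.MP_787500_nt.NonzeroCubicTwists
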