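import Mathlib
import Pool.Agent.R384.NormL
import Pool.Agent.J6H2.TW.PT
import Pool.Agent.J6H2.TW.Dih

/-!
# Bloch–Kato Selmer groups of products of elliptic curves in every odd degree, over all fields in the
# `2`-extensions of `ℚ(√-7)` unramified outside `2`

`k = ℚ(√-7)` with ring of integers `ℤ[ω]`, `ω² = ω - 2`; `(2) = (ω) (1 - ω)`. We consider the curves
`E_{t,d} : y² = x (x + d a²) (x + d b²)`, `t = (a, b, c)`, `a² = b² + c²`, `a` and `d` prime to `2`,
`ω² ∣ b`, `(1 - ω)² ∣ c`. For the triple `(1, ω², (1 - ω)²)` these are the curves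
`y² = x³ + 3 (1 - ω) d x² + ω⁴ d² x`, with complex multiplication by `ℤ[ω]`.

Let `M / k` be a finite Galois extension of degree a power of `2`, unramified outside `2`, with any
Galois group, and let `K` be any field between `k` and `M`. Let `D = ± q_1 ... q_n` with distinct
primes `q_j = 1` modulo `4`, `q_1 ... q_n = 5` modulo `8`, such that the graph with the edges `{j, k}`
for the pairs such that `q_j` is not a square modulo `q_k` has an odd number of spanning trees.

Theorem. Let `m = 2 i + 1` and let `E_1, ..., E_m` be curves of the family with `d_1 ... d_m = D`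
modulo squares, such that `-1` is a square and `D` is not a square modulo the prime divisors `π` of
the `a_k b_k c_k` with `(π, 2) = 1`. If the `q_j` and these primes `π` split completely in `M`, then
the Bloch–Kato Selmer group `H¹_f(K, V_2(E_1) ⊗ ... ⊗ V_2(E_m) (-i))` is zero.

The hypotheses are satisfied in the following case. Let `l` be a prime number, `l = 5` modulo `8`,
inert in `k`, and let `E_1, ..., E_m` be curves with complex multiplication as above (there are no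
primes `π`), with `d_1 ... d_m = D = ± l` modulo squares. Then `l` splits completely in ALL finite
Galois extensions `M / k` of degree a power of `2` unramified outside `2` such that all automorphisms
of `M / ℚ` which are not trivial on `k` are involutions. So the groups are zero, for example, for all
subfields of the ring class fields of conductor `2^r` of `k`, and for all layers of the anticyclotomic
`ℤ_2`-extension of `k`.

Proof. An induced cocycle over `k` with coefficients in the functions on `Gal(ℚ̄/k) / Gal(ℚ̄/K)` is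
made trivial exactly at the places above `2`: the decomposition groups at these places surject onto
`Gal(M/k)`. Its reduction modulo `2` is a cocycle with values in a module over a finite `2`-group; a
dévissage with local conditions reduces it to homomorphisms `Gal(ℚ̄/k) → 𝔽_2`, which are excluded by
the reciprocity law and the condition on the spanning trees.
-/

set_option autoImplicit false

namespace Pool.Agent.Results.MP_787500_nt.TowersProducts

open WeierstrassCurve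
open scoped Classical

/-! ### The curves -/

/-- An algebraic closure of `ℚ`. -/
abbrev QBar : Type := AlgebraicClosure ℚ

/-- The ring of integers `ℤ[ω]`, `ω² = ω - 2`, of `ℚ(√-7)`. -/
abbrev OK : Type := QuadraticAlgebra ℤ (-2) 1

/-- The element `ω`. -/
def om : OK := ⟨0, 1⟩

/-- The field `k = ℚ(w)`. It is `ℚ(√-7)` if `w² = w - 2`. -/
noncomputable abbrev K (w : QBar) : IntermediateField ℚ QBar := IntermediateField.adjoin ℚ {w}

/-- `w` as an element of `k`. -/
noncomputable def gen (w : QBar) : K w := ⟨w, IntermediateField.mem_adjoin_simple_self ℚ w⟩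

/-- The element `a + b ω` of `ℤ[ω]` as an element of the field `L`, `w` being the image of `ω`. -/
def emb {L : Type} [Ring L] (w : L) (z : OK) : L := z.re + z.im * w

/-- A triple of elements of `ℤ[ω]`. -/
structure Triple where
  (a b c : OK)

/-- The triple `(1, ω², (1 - ω)²)`. -/
def tCM : Triple := ⟨1, om ^ 2, (1 - om) ^ 2⟩

/-- The triples `(a, b, c)` such that `a² = b² + c²`, `a b c ≠ 0`, `a` is prime to `2`, `ω² ∣ b` and
`(1 - ω)² ∣ c`. -/
structure Triple.Adm (t : Triple) : Prop where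
  pyth : t.a ^ 2 = t.b ^ 2 + t.c ^ 2
  ne : t.a * t.b * t.c ≠ 0
  odd : IsCoprime t.a 2
  two : om ^ 2 ∣ t.b ∧ (1 - om) ^ 2 ∣ t.c

/-- The curve `y² = x (x + d a²) (x + d b²)`. -/
def curve {F : Type} [Field F] (d a b : F) : WeierstrassCurve F :=
  ⟨0, d * (a ^ 2 + b ^ 2), 0, d ^ 2 * a ^ 2 * b ^ 2, 0⟩

/-- The curve `E_{t,d} : y² = x (x + d a²) (x + d b²)` over `k`, `t = (a, b, c)`. -/
noncomputable def E (w : QBar) (t : Triple) (d : OK) : WeierstrassCurve (K w) :=
  curve (emb (gen w) d) (emb (gen w) t.a) (emb (gen w) t.b)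

/-- The absolute Galois group of `k`. -/
abbrev Gal (w : QBar) : Type := QBar ≃ₐ[K w] QBar

/-- The group `E_{t,d}(ℚ̄)`. -/
abbrev Pts (w : QBar) (t : Triple) (d : OK) : Type := ((E w t d).toAffine.baseChange QBar).Point

/-- The action of the Galois group on `E_{t,d}(ℚ̄)`. -/
noncomputable def act {w : QBar} {t : Triple} {d : OK} (σ : Gal w) : Pts w t d →+ Pts w t d :=
  Affine.Point.map (W' := (E w t d).toAffine) (S := K w) (F := QBar) (K := QBar) σ.toAlgHom

/-! ### The Tate modules -/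

/-- The sequences `e 0` and `e 1` are elements of the `2`-adic Tate module of the abelian group `A`,
and they are a basis of it. -/
structure IsBasis {A : Type} [AddCommGroup A] (e : Fin 2 → ℕ → A) : Prop where
  zero : ∀ i, e i 0 = 0
  double : ∀ i n, e i (n + 1) + e i (n + 1) = e i n
  span : ∀ (n : ℕ) (P : A), (2 ^ n : ℤ) • P = 0 → ∃ k : Fin 2 → ℤ, P = ∑ i, k i • e i n
  indep : ∀ (n : ℕ) (k : Fin 2 → ℤ), ∑ i, k i • e i n = 0 → ∀ i, (2 ^ n : ℤ) ∣ k i

/-- `M` is the matrix of the endomorphism `f` of the abelian group `A` on the basis `e` of the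
`2`-adic Tate module. -/
def ActsBy {A : Type} [AddCommGroup A] (f : A →+ A) (e : Fin 2 → ℕ → A)
    (M : Matrix (Fin 2) (Fin 2) ℤ_[2]) : Prop :=
  ∀ (n : ℕ) (k : Fin 2 → Fin 2 → ℤ), (∀ i j, (2 : ℤ_[2]) ^ n ∣ M i j - k i j) →
    ∀ j, f (e j n) = ∑ i, k i j • e i n

/-- The point `P` is zero, or its first coordinate `x` satisfies `|x + s| > 1 / 4`: in other words
`P` is in the kernel of the reduction for the coordinate `(x + s) / 4`. -/
def InKer (ι : QBar →ₐ[ℚ] PadicAlgCl 2) (s : QBar) {W : Affine QBar} : W.Point → Prop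
  | .zero => True
  | .some x _ _ => 1 / 4 < ‖ι (x + s)‖

/-- `e 0`, `e 1` is a basis of the `2`-adic Tate module of `E_{t,d}`, `ρ` is the action of the Galois
group on this basis, `e 0` is in the kernel of the reduction at the place `ι₁`, for the coordinate
`x / 4`, and `e 1` is in the kernel of the reduction at the place `ι₂`, for the coordinate
`(x + d a²) / 4`. -/
structure Frame {w : QBar} (ι₁ ι₂ : QBar →ₐ[ℚ] PadicAlgCl 2) (t : Triple) (d : OK)
    (e : Fin 2 → ℕ → Pts w t d) (ρ : Gal w →* Matrix (Fin 2) (Fin 2) ℤ_[2]) : Prop where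
  basis : IsBasis e
  acts : ∀ σ, ActsBy (act σ) e (ρ σ)
  ker₁ : ∀ n, InKer ι₁ 0 (e 0 n)
  ker₂ : ∀ n, InKer ι₂ (emb w (d * t.a ^ 2)) (e 1 n)

/-! ### The Galois groups -/

/-- The decomposition group of the place given by the embedding `ι` of `ℚ̄`. -/
def Dec {w : QBar} {p : ℕ} [Fact p.Prime] (ι : QBar →ₐ[ℚ] PadicAlgCl p) : Set (Gal w) :=
  {σ | ∃ τ : PadicAlgCl p ≃ₐ[ℚ_[p]] PadicAlgCl p, ∀ x, τ (ι x) = ι (σ x)}

/-- Its inertia group: the automorphisms which are trivial on the residue field. -/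
def Inr {w : QBar} {p : ℕ} [Fact p.Prime] (ι : QBar →ₐ[ℚ] PadicAlgCl p) : Set (Gal w) :=
  {σ | ∃ τ : PadicAlgCl p ≃ₐ[ℚ_[p]] PadicAlgCl p, (∀ x, τ (ι x) = ι (σ x)) ∧
    ∀ z : PadicAlgCl p, ‖z‖ ≤ 1 → ‖τ z - z‖ < 1}

/-- `N` is the Galois group of `ℚ̄ / M` for a finite Galois extension `M / k` whose degree is a power
of `2` and which is unramified outside `2`: `N` is a normal open subgroup of index a power of `2` and
contains the inertia groups of the odd primes. -/
structure TwoExtension {w : QBar} (N : Subgroup (Gal w)) : Prop where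
  isOpen : IsOpen (N : Set (Gal w))
  normal : N.Normal
  index : ∃ a : ℕ, N.index = 2 ^ a
  unramified : ∀ (p : ℕ) [Fact p.Prime] (ι : QBar →ₐ[ℚ] PadicAlgCl p), p ≠ 2 →
    ∀ σ ∈ (Inr ι : Set (Gal w)), σ ∈ N

/-- The prime `π` of `ℤ[ω]` splits completely in `M`, `N = Gal(ℚ̄ / M)`: the decomposition groups of
the places above `π` are contained in `N`. -/
def Splits {w : QBar} (N : Subgroup (Gal w)) (π : OK) : Prop :=
  ∀ (p : ℕ) [Fact p.Prime] (ι : QBar →ₐ[ℚ] PadicAlgCl p), ‖ι (emb w π)‖ < 1 →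
    ∀ σ ∈ (Dec ι : Set (Gal w)), σ ∈ N

/-- `M` is generalized dihedral, `N = Gal(ℚ̄ / M)`: if the automorphism `τ` of `ℚ̄` is not trivial on
`k` then `τ²`, as an element `σ` of `Gal(ℚ̄ / k)`, is trivial on `M`. (So `M / ℚ` is a Galois
extension, and the elements of `Gal(M / ℚ)` which are not trivial on `k` are involutions.) -/
def Dihedral {w : QBar} (N : Subgroup (Gal w)) : Prop :=
  ∀ τ : QBar ≃ₐ[ℚ] QBar, τ w ≠ w → ∀ σ : Gal w, (∀ x, σ x = τ (τ x)) → σ ∈ N

/-! ### The Selmer groups -/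

/-- The `2`-adic cyclotomic character. -/
noncomputable def cyc (w : QBar) : Gal w →* ℤ_[2]ˣ :=
  (cyclotomicCharacter QBar 2).comp (MulSemiringAction.toRingAut (Gal w) QBar)

/-- The action of the group `G` on `V_1 ⊗ ... ⊗ V_n ⊗ χ⁻ⁱ`, where `ρ k` is the action on the basis
`e 0`, `e 1` of `V_k`. The coordinate `α` is the coefficient of `e (α 1) ⊗ ... ⊗ e (α n)`. -/
noncomputable def tens {G : Type} [Group G] {n : ℕ} (ρ : Fin n → G →* Matrix (Fin 2) (Fin 2) ℤ_[2])
    (χ : G →* ℤ_[2]ˣ) (i : ℕ) (σ : G) (v : (Fin n → Fin 2) → ℚ_[2]) : (Fin n → Fin 2) → ℚ_[2] :=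
  fun α => ∑ β, ((((χ σ)⁻¹ ^ i : ℤ_[2]ˣ) * ∏ k, ρ k σ (α k) (β k) : ℤ_[2]) : ℚ_[2]) * v β

/-- `c` is a continuous cocycle of the subgroup `H` of `G` with values in `ℚ_2 ^ B`, where `σ` acts by
`A σ`. -/
structure IsCocycle {G B : Type} [Group G] [TopologicalSpace G] {H : Subgroup G}
    (A : G → (B → ℚ_[2]) → B → ℚ_[2]) (c : H → B → ℚ_[2]) : Prop where
  cont : Continuous c
  mul : ∀ σ τ : H, c (σ * τ) = c σ + A σ (c τ)

/-- The restriction of the cocycle `c` of `H` to the elements of the subset `D` of `G` is the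
coboundary of a vector `y` as far as the coordinates `α ∈ S` are concerned. -/
def TrivialOn {G B : Type} [Group G] {H : Subgroup G} (A : G → (B → ℚ_[2]) → B → ℚ_[2])
    (D : Set G) (S : Set B) (c : H → B → ℚ_[2]) : Prop :=
  ∃ y : B → ℚ_[2], ∀ σ : H, (σ : G) ∈ D → ∀ α ∈ S, c σ α = A σ y α - y α

/-- The number of the coordinates of `α` which are equal to `s`. -/
def count {n : ℕ} (α : Fin n → Fin 2) (s : Fin 2) : ℕ := (Finset.univ.filter fun k => α k = s).card

/-- The Bloch–Kato conditions over the field `K` with the Galois group `H`, for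
`V = V_1 ⊗ ... ⊗ V_n (-i)`, `n = 2 i + 1`: the class is trivial on the inertia groups of the places
prime to `2`; at the place `ι₁` it is trivial in `H¹(K_v, V / F)` where `F` is generated by the tensors
`e (α 1) ⊗ ... ⊗ e (α n)` with more than `i` factors `e 0`, and at the place `ι₂` the same with `e 1`
instead of `e 0`. (If `K` is contained in a `2`-extension of `k` unramified outside `2` then the places
given by `ι₁` and `ι₂` are the only places of `K` above `ω` and `1 - ω`.) -/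
structure IsSelmer {w : QBar} {H : Subgroup (Gal w)} (ι₁ ι₂ : QBar →ₐ[ℚ] PadicAlgCl 2) (i : ℕ)
    (A : Gal w → ((Fin (2 * i + 1) → Fin 2) → ℚ_[2]) → (Fin (2 * i + 1) → Fin 2) → ℚ_[2])
    (c : H → (Fin (2 * i + 1) → Fin 2) → ℚ_[2]) : Prop where
  odd : ∀ (p : ℕ) [Fact p.Prime] (ι : QBar →ₐ[ℚ] PadicAlgCl p), p ≠ 2 →
    TrivialOn A (Inr ι) Set.univ c
  two₁ : TrivialOn A (Dec ι₁) {α | count α 0 ≤ i} c
  two₂ : TrivialOn A (Dec ι₂) {α | count α 1 ≤ i} c

/-- All the classes of the Selmer group over the field with the Galois group `H` are trivial. -/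
def SelmerZero {w : QBar} (H : Subgroup (Gal w)) (ι₁ ι₂ : QBar →ₐ[ℚ] PadicAlgCl 2) (i : ℕ)
    (A : Gal w → ((Fin (2 * i + 1) → Fin 2) → ℚ_[2]) → (Fin (2 * i + 1) → Fin 2) → ℚ_[2]) : Prop :=
  ∀ c : H → (Fin (2 * i + 1) → Fin 2) → ℚ_[2], IsCocycle A c → IsSelmer ι₁ ι₂ i A c →
    TrivialOn A Set.univ Set.univ c

/-! ### The twists -/

/-- `x` is a square modulo `q`. -/
def IsSquareMod (q x : OK) : Prop := ∃ y : OK, q ∣ x - y ^ 2

/-- `D = ± q_1 ... q_n`, the `q_i` are distinct primes congruent to `1` modulo `4`, their product is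
congruent to `5` modulo `8`, and the only ways to write `{1, ..., n}` as the union of two disjoint
subsets `S` and `T` such that the product of the `q_k`, `k ∈ S`, is a square modulo the `q_i`,
`i ∈ T`, and conversely, are the trivial ones. By quadratic reciprocity, this means that the graph
with edges `{i, k}` for the pairs such that `q_i` is not a square modulo `q_k` has an odd number
of spanning trees. -/
structure Good {n : ℕ} (q : Fin n → OK) (D : OK) : Prop where
  prime : ∀ i, Prime (q i)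
  one : ∀ i, (4 : OK) ∣ q i - 1
  inj : Function.Injective q
  prod : D = ∏ i, q i ∨ D = -∏ i, q i
  five : (8 : OK) ∣ ∏ i, q i - 5
  indec : ∀ S : Finset (Fin n), (∀ i, i ∉ S → IsSquareMod (q i) (∏ k ∈ S, q k)) →
    (∀ i, i ∈ S → IsSquareMod (q i) (∏ k ∈ Sᶜ, q k)) → S = ∅ ∨ S = Finset.univ

/-- `π` is a prime, it does not divide `2`, and it divides `a b c`, `t = (a, b, c)`. -/
def BadPrime (t : Triple) (π : OK) : Prop := Prime π ∧ ¬ π ∣ 2 ∧ π ∣ t.a * t.b * t.c

/-- `-1` is a square modulo the bad primes. -/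
def Fine (t : Triple) : Prop := ∀ π, BadPrime t π → IsSquareMod π (-1)

/-- `D` is not a square modulo the bad primes. -/
def NonSquare (t : Triple) (D : OK) : Prop := ∀ π, BadPrime t π → ¬ IsSquareMod π D

/-! ### The proof -/

section proof

open Pool.Agent.Y676.IS (Cu some_congr)
open Pool.Agent.R384 (al be em LD ac Pt Rg sP Bs Acts gH)

variable {w : QBar} (hw : w ^ 2 = w - 2) {t : Triple} {d : OK}

lemma emb_eq (z : OK) : ((emb (gen w) z : K w) : QBar) = em hw z := by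
  unfold emb
  rw [Pool.Agent.R384.em_apply]
  push_cast
  rfl

lemma emb_eq' (z : OK) : emb w z = em hw z := by
  unfold emb
  rw [Pool.Agent.R384.em_apply]

lemma curve_eq : (E w t d).toAffine.baseChange QBar =
    Cu (al (em hw d) (em hw t.a) (em hw t.b)) (be (em hw d) (em hw t.a) (em hw t.b)) := by
  have h1 : ∀ z, algebraMap (K w) QBar (emb (gen w) z) = em hw z := emb_eq hw
  unfold E curve Cu al be WeierstrassCurve.Affine.baseChange WeierstrassCurve.toAffine
  ext
  · exact map_zero _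
  · show algebraMap (K w) QBar (emb (gen w) d * (emb (gen w) t.a ^ 2 + emb (gen w) t.b ^ 2)) = _
    rw [map_mul, map_add, map_pow, map_pow, h1, h1, h1]
  · exact map_zero _
  · show algebraMap (K w) QBar (emb (gen w) d ^ 2 * emb (gen w) t.a ^ 2 * emb (gen w) t.b ^ 2) = _
    rw [map_mul, map_mul, map_pow, map_pow, map_pow, h1, h1, h1]
  · exact map_zero _

/-- the points of equal curves -/
noncomputable def tr {W W' : Affine QBar} (h : W = W') : W.Point ≃+ W'.Point := by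
  subst h
  exact AddEquiv.refl _

lemma tr_some {W W' : Affine QBar} (h : W = W') {a b : QBar} (hab : W.Nonsingular a b) :
    tr h (.some a b hab) = .some a b (h ▸ hab) := by
  subst h
  rfl

lemma tr_act (h : LD (em hw d) (em hw t.a) (em hw t.b) (em hw t.c)) (σ : Gal w) (P : Pts w t d) :
    tr (curve_eq hw) (act σ P) = ac hw h σ (tr (curve_eq hw) P) := by
  rcases P with _ | ⟨a, b, hab⟩
  · show tr (curve_eq hw) (act σ 0) = ac hw h σ (tr (curve_eq hw) 0)
    simp only [map_zero]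
  · rw [tr_some (curve_eq hw) hab]
    exact tr_some (curve_eq hw) (a := σ.toAlgHom a) (b := σ.toAlgHom b)
      ((Affine.baseChange_nonsingular (E w t d).toAffine σ.toAlgHom.injective ..).mpr hab)

lemma d_ne {d : OK} (hd : IsCoprime d 2) : d ≠ 0 := by
  rintro rfl
  have h1 : IsUnit (2 : OK) := isCoprime_zero_left.1 hd
  rw [Pool.Agent.R384.unit_iff] at h1
  have h2 : Pool.Agent.R384.nn (2 : OK) = 4 := by
    have := Pool.Agent.R384.nn_int 2
    push_cast at this
    rw [this]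
  rw [h2] at h1
  norm_num at h1

lemma elliptic (ht : t.Adm) (hd : IsCoprime d 2) (hw : w ^ 2 = w - 2) : (E w t d).IsElliptic := by
  have hne : ∀ z : OK, z ≠ 0 → (emb (gen w) z : K w) ≠ 0 := by
    intro z hz h
    have h1 := emb_eq hw z
    rw [h] at h1
    exact hz (Pool.Agent.R384.em_inj hw h1.symm)
  have habc := ht.ne
  have ha : t.a ≠ 0 := fun h => habc (by rw [h]; ring)
  have hb : t.b ≠ 0 := fun h => habc (by rw [h]; ring)
  have hc : t.c ≠ 0 := fun h => habc (by rw [h]; ring)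
  have hp : (emb (gen w) t.a : K w) ^ 2 = emb (gen w) t.b ^ 2 + emb (gen w) t.c ^ 2 := by
    apply Subtype.ext
    push_cast
    rw [emb_eq hw, emb_eq hw, emb_eq hw, ← map_pow, ← map_pow, ← map_pow, ← map_add, ht.pyth]
  rw [WeierstrassCurve.isElliptic_iff, isUnit_iff_ne_zero]
  have e : (E w t d).Δ = 16 * emb (gen w) d ^ 6 * (emb (gen w) t.a * emb (gen w) t.b *
      emb (gen w) t.c) ^ 4 := by
    simp only [E, curve, WeierstrassCurve.Δ, WeierstrassCurve.b₂, WeierstrassCurve.b₄,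
      WeierstrassCurve.b₆, WeierstrassCurve.b₈]
    generalize emb (gen w) d = d' at *
    generalize emb (gen w) t.a = a at *
    generalize emb (gen w) t.b = b at *
    generalize emb (gen w) t.c = c at *
    linear_combination (16 * d' ^ 6 * a ^ 4 * b ^ 4 * (a ^ 2 - b ^ 2 + c ^ 2)) * hp
  rw [e]
  exact mul_ne_zero (mul_ne_zero (by norm_num) (pow_ne_zero _ (hne _ (d_ne hd)))) (pow_ne_zero _
    (mul_ne_zero (mul_ne_zero (hne _ ha) (hne _ hb)) (hne _ hc)))

lemma ld (ht : t.Adm) (hd : IsCoprime d 2) : LD (em hw d) (em hw t.a) (em hw t.b) (em hw t.c) := by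
  have habc := ht.ne
  refine ⟨Pool.Agent.R384.em_ne hw (d_ne hd), Pool.Agent.R384.em_ne hw fun h => habc (by rw [h]; ring),
    Pool.Agent.R384.em_ne hw fun h => habc (by rw [h]; ring),
    Pool.Agent.R384.em_ne hw fun h => habc (by rw [h]; ring), ?_⟩
  rw [← map_pow, ← map_pow, ← map_pow, ← map_add, ht.pyth]

lemma inKer_iff {ι : QBar →ₐ[ℚ] PadicAlgCl 2} (P : Pts w t d)
    (h : Rg (ι : QBar →+* PadicAlgCl 2) (tr (curve_eq hw) P)) : InKer ι 0 P := by
  rcases P with _ | ⟨x, y, hxy⟩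
  · trivial
  · rw [tr_some (curve_eq hw) hxy] at h
    show 1 / 4 < ‖ι (x + 0)‖
    rw [add_zero]
    exact h

lemma inKer_iff' {ι : QBar →ₐ[ℚ] PadicAlgCl 2}
    (h' : LD (em hw d) (em hw t.a) (em hw t.b) (em hw t.c)) (P : Pts w t d)
    (h : Rg (ι : QBar →+* PadicAlgCl 2) (sP h' (tr (curve_eq hw) P))) :
    InKer ι (emb w (d * t.a ^ 2)) P := by
  rcases P with _ | ⟨x, y, hxy⟩
  · trivial
  · rw [tr_some (curve_eq hw) hxy] at h
    show 1 / 4 < ‖ι (x + emb w (d * t.a ^ 2))‖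
    rw [emb_eq' hw, map_mul, map_pow]
    exact h

/-- the frame of a curve -/
lemma exists_frame (ht : t.Adm) (hd : IsCoprime d 2) {r I : QBar} (hr : r ^ 2 = em hw d)
    (hI : I ^ 2 = -1) {ι₁ ι₂ : QBar →ₐ[ℚ] PadicAlgCl 2} (h₁ : ‖ι₁ w‖ < 1) (h₂ : ‖ι₂ (1 - w)‖ < 1) :
    ∃ (e : Fin 2 → ℕ → Pts w t d) (ρ : Gal w →* Matrix (Fin 2) (Fin 2) ℤ_[2]),
      Frame ι₁ ι₂ t d e ρ ∧ Pool.Agent.R384.Rho hw t.a t.b t.c r I ι₁ ι₂ ρ := by
  have hld := ld hw ht hd
  obtain ⟨e, ρ, hb, ha, hk1, hk2, hρ⟩ := Pool.Agent.R384.exists_rho hw hld hr hI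
    (Pool.Agent.R384.unit_norm hw hd ι₁) (Pool.Agent.R384.unit_norm hw hd ι₂)
    (Pool.Agent.R384.unit_norm hw ht.odd ι₁) (Pool.Agent.R384.unit_norm hw ht.odd ι₂)
    (Pool.Agent.R384.quarter hw ht.two.1 h₁) (Pool.Agent.R384.quarter' hw ht.two.2 h₂)
  set T := tr (curve_eq hw (t := t) (d := d)) with hT
  refine ⟨fun s n => T.symm (e s n), ρ, ⟨⟨?_, ?_, ?_, ?_⟩, ?_, ?_, ?_⟩, hρ⟩
  · intro s
    show T.symm (e s 0) = 0
    rw [hb.zero, map_zero]
  · intro s n
    show T.symm (e s (n + 1)) + T.symm (e s (n + 1)) = T.symm (e s n)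
    rw [← map_add, hb.dbl]
  · intro n P hP
    have h1 : (2 ^ n : ℤ) • T P = 0 := by rw [← map_zsmul, hP, map_zero]
    obtain ⟨k, hk⟩ := hb.span n _ h1
    refine ⟨k, ?_⟩
    apply T.injective
    rw [map_sum, hk]
    refine Finset.sum_congr rfl fun s _ => ?_
    rw [map_zsmul, T.apply_symm_apply]
  · intro n k hk
    apply hb.indep n k
    have h1 := congrArg T hk
    rw [map_sum, map_zero] at h1
    rw [← h1]
    refine Finset.sum_congr rfl fun s _ => ?_
    rw [map_zsmul, T.apply_symm_apply]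
  · intro σ n k hk s
    show act σ (T.symm (e s n)) = ∑ i, k i s • T.symm (e i n)
    apply T.injective
    rw [hT, tr_act hw hld σ, ← hT, T.apply_symm_apply, ha σ n k hk s, map_sum]
    refine Finset.sum_congr rfl fun i _ => ?_
    rw [map_zsmul, T.apply_symm_apply]
  · intro n
    apply inKer_iff hw
    rw [← hT, T.apply_symm_apply]
    exact hk1 n
  · intro n
    apply inKer_iff' hw hld
    rw [← hT, T.apply_symm_apply]
    exact hk2 n

end proof

/-- the general statement -/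
theorem main {n : ℕ} {q : Fin n → OK} {D s : OK} (hg : Good q D) {i : ℕ}
    {t : Fin (2 * i + 1) → Triple} {d : Fin (2 * i + 1) → OK}
    (ht : ∀ k, (t k).Adm ∧ IsCoprime (d k) 2) (hprod : ∏ k, d k = D * s ^ 2)
    (hbad : ∀ k, Fine (t k) ∧ NonSquare (t k) D) {w : QBar} (hw : w ^ 2 = w - 2)
    {N H : Subgroup (Gal w)} (hN : TwoExtension N) (hNH : N ≤ H) (hq : ∀ j, Splits N (q j))
    (hπ : ∀ k π, BadPrime (t k) π → Splits N π) (ι₁ ι₂ : QBar →ₐ[ℚ] PadicAlgCl 2)
    (h₁ : ‖ι₁ w‖ < 1) (h₂ : ‖ι₂ (1 - w)‖ < 1) :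
    ∃ (e : ∀ k, Fin 2 → ℕ → Pts w (t k) (d k))
      (ρ : Fin (2 * i + 1) → Gal w →* Matrix (Fin 2) (Fin 2) ℤ_[2]),
      (∀ k, Frame ι₁ ι₂ (t k) (d k) (e k) (ρ k)) ∧ SelmerZero H ι₁ ι₂ i (tens ρ (cyc w) i) := by
  have hpr : ∀ j, Pool.Agent.R384.Pr (q j) := fun j => ⟨hg.prime j, hg.one j⟩
  have hs : s ≠ 0 := by
    rintro rfl
    rw [zero_pow two_ne_zero, mul_zero] at hprod
    obtain ⟨k, _, hk⟩ := Finset.prod_eq_zero_iff.1 hprod
    exact d_ne (ht k).2 hk
  have hrk : ∀ k, ∃ r : QBar, r ^ 2 = Pool.Agent.R384.em hw (d k) := fun k =>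
    IsAlgClosed.exists_pow_nat_eq _ (by norm_num)
  choose rk hrk using hrk
  obtain ⟨I, hI⟩ : ∃ I : QBar, I ^ 2 = -1 := IsAlgClosed.exists_pow_nat_eq _ (by norm_num)
  have hs' := Pool.Agent.R384.em_ne hw hs
  have hrs : (∏ k, rk k) / Pool.Agent.R384.em hw s * Pool.Agent.R384.em hw s = ∏ k, rk k :=
    div_mul_cancel₀ _ hs'
  have hr : ((∏ k, rk k) / Pool.Agent.R384.em hw s) ^ 2 = Pool.Agent.R384.em hw D := by
    rw [div_pow, ← Finset.prod_pow, div_eq_iff (pow_ne_zero _ hs')]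
    simp only [hrk]
    rw [← map_prod, hprod, map_mul, map_pow]
  have hfr := fun k => exists_frame hw (ht k).1 (ht k).2 (hrk k) hI h₁ h₂
  choose e ρ hfr hρ using hfr
  refine ⟨e, ρ, hfr, ?_⟩
  intro c hc hsel
  have hA : ∀ (σ : Gal w) (v : (Fin (2 * i + 1) → Fin 2) → ℚ_[2]),
      tens ρ (cyc w) i σ v = Pool.Agent.R384.tR ρ (Pool.Agent.R384.cyc w) i σ v := by
    intro σ v
    funext α
    rw [Pool.Agent.R384.tR_apply]
    rfl
  have hDq : D ∣ ∏ j, q j := by
    rcases hg.prod with h | h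
    · rw [h]
    · rw [h, neg_dvd]
  have hspl : ∀ (p : ℕ) [Fact p.Prime] (ι : QBar →ₐ[ℚ] PadicAlgCl p) (π : OK), Splits N π →
      ‖Pool.Agent.R384.em (Pool.Agent.R384.iw hw ι) π‖ < 1 →
      ∀ σ ∈ (Pool.Agent.R384.DD ι : Set (Gal w)), σ ∈ N := by
    intro p _ ι π hπ hlt σ hσ
    refine hπ p ι ?_ σ hσ
    rw [emb_eq' hw, Pool.Agent.R384.ι_em]
    exact hlt
  obtain ⟨y, hy⟩ := Pool.Agent.J6H2.TW.prod_tower hw hpr hg.inj hg.five hg.indec hg.prod hr hI h₁ h₂
    rfl hρ hrk hs hrs (fun k => (ht k).1.ne)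
    (fun k π hπ h2 hd => ⟨(hbad k).1 π ⟨hπ, h2, hd⟩, (hbad k).2 π ⟨hπ, h2, hd⟩⟩) hNH hN.normal
    hN.index hN.isOpen hN.unramified
    (by
      intro p _ ι hp hlt σ hσ
      have h3 : ‖Pool.Agent.R384.em (Pool.Agent.R384.iw hw ι) (∏ j, q j)‖ < 1 := by
        rcases hg.prod with h | h
        · rwa [h] at hlt
        · rwa [h, map_neg, norm_neg] at hlt
      obtain ⟨π, hπp, hd, hπl⟩ := Pool.Agent.R384.exists_below (Pool.Agent.R384.iw hw ι)
        (Finset.prod_ne_zero_iff.2 fun j _ => (hg.prime j).ne_zero) h3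
      obtain ⟨j, -, hj⟩ := (hπp.dvd_finsetProd_iff _).1 hd
      refine hspl p ι (q j) (hq j) ?_ σ hσ
      exact (Pool.Agent.R384.dvd_iff (Pool.Agent.R384.iw hw ι) hπp hπl _).1 hj)
    (by
      intro p _ ι hp k hlt σ hσ
      obtain ⟨π, hπp, hd, hπl⟩ := Pool.Agent.R384.exists_below (Pool.Agent.R384.iw hw ι)
        (ht k).1.ne hlt
      have hπ2 : ¬ π ∣ 2 := fun h =>
        hp ((Pool.Agent.R384.two_of_dvd hπp (Pool.Agent.R384.iw hw ι) hπl).2 h)
      exact hspl p ι π (hπ k π ⟨hπp, hπ2, hd⟩) hπl σ hσ)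
    hc.cont (fun σ τ => by rw [hc.mul, hA])
    (fun p _ ι hp => by
      obtain ⟨y, hy⟩ := hsel.odd p ι hp
      refine ⟨y, fun σ hσ => ?_⟩
      funext α
      rw [hy σ hσ α (Set.mem_univ _), hA]
      rfl)
    (by
      obtain ⟨y, hy⟩ := hsel.two₁
      refine ⟨y, fun σ hσ α hα => ?_⟩
      rw [hy σ hσ α hα, hA]
      rfl)
    (by
      obtain ⟨y, hy⟩ := hsel.two₂
      refine ⟨y, fun σ hσ α hα => ?_⟩
      rw [hy σ hσ α hα, hA]
      rfl)
  refine ⟨y, fun σ _ α _ => ?_⟩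
  rw [hy σ, hA]
  rfl

/-! ### Complex multiplication -/

open scoped NumberTheorySymbols in
lemma jac {l : ℕ} (hl : l.Prime) (h8 : l % 8 = 5) (h7 : l % 7 = 3 ∨ l % 7 = 5 ∨ l % 7 = 6) :
    J(-7 | l) = -1 := by
  have : Fact l.Prime := ⟨hl⟩
  have ho : Odd l := Nat.odd_iff.2 (by omega)
  have h4 : l % 4 = 1 := by omega
  rw [jacobiSym.neg _ ho, ZMod.χ₄_nat_one_mod_four h4, one_mul]
  have h1 : J(((7 : ℕ) : ℤ) | l) = J((l : ℤ) | 7) :=
    (jacobiSym.quadratic_reciprocity_one_mod_four h4 (by decide)).symm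
  have h2 : J((l : ℤ) | 7) = J(((l % 7 : ℕ) : ℤ) | 7) := by
    rw [jacobiSym.mod_left (l : ℤ) 7]
    push_cast
    rfl
  have e : (7 : ℤ) = ((7 : ℕ) : ℤ) := rfl
  rw [e, h1, h2]
  rcases h7 with h | h | h <;> rw [h] <;> norm_num

lemma tCM_adm : tCM.Adm := by
  refine ⟨?_, ?_, isCoprime_one_left, dvd_rfl, dvd_rfl⟩
  · show (1 : OK) ^ 2 = (om ^ 2) ^ 2 + ((1 - om) ^ 2) ^ 2
    have h : om * (1 - om) = (2 : OK) := Pool.Agent.R384.om_mul
    linear_combination (2 * om * (om - 1)) * h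
  · show (1 : OK) * om ^ 2 * (1 - om) ^ 2 ≠ 0
    rw [one_mul, ← mul_pow, show om * (1 - om) = (2 : OK) from Pool.Agent.R384.om_mul]
    intro h
    have h1 : ((4 : ℤ) : OK) = 0 := by
      rw [← h]
      norm_num
    have h2 := congrArg QuadraticAlgebra.re h1
    rw [QuadraticAlgebra.re_intCast] at h2
    norm_num at h2

lemma tCM_bad {π : OK} : ¬ BadPrime tCM π := by
  rintro ⟨h1, h2, h3⟩
  apply h2
  have e : tCM.a * tCM.b * tCM.c = 2 ^ 2 := by
    show (1 : OK) * om ^ 2 * (1 - om) ^ 2 = 2 ^ 2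
    rw [one_mul, ← mul_pow, show om * (1 - om) = (2 : OK) from Pool.Agent.R384.om_mul]
  rw [e] at h3
  exact h1.dvd_of_dvd_pow h3

lemma good_l {l : ℕ} (hl : l.Prime) (h8 : l % 8 = 5) (h7 : l % 7 = 3 ∨ l % 7 = 5 ∨ l % 7 = 6)
    {D : OK} (hD : D = l ∨ D = -l) : Good (fun _ : Fin 1 => (l : OK)) D := by
  have : Fact l.Prime := ⟨hl⟩
  have hp := Pool.Agent.R384.inert_prime (jac hl h8 h7)
  obtain ⟨m, hm⟩ : ∃ m : ℕ, l = 8 * m + 5 := ⟨l / 8, by omega⟩
  refine ⟨fun _ => by exact_mod_cast hp, fun _ => ⟨2 * m + 1, ?_⟩, fun a b _ => Subsingleton.elim _ _,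
    ?_, ⟨m, ?_⟩, ?_⟩
  · rw [hm]; push_cast; ring
  · simpa using hD
  · rw [hm]; simp
  · intro S _ _
    by_cases h : (0 : Fin 1) ∈ S
    · right
      ext x
      rw [Subsingleton.elim x 0]
      simp [h]
    · left
      ext x
      rw [Subsingleton.elim x 0]
      simp [h]

lemma splits_l {l : ℕ} (hl : l.Prime) (h8 : l % 8 = 5) (h7 : l % 7 = 3 ∨ l % 7 = 5 ∨ l % 7 = 6)
    {w : QBar} (hw : w ^ 2 = w - 2) {N : Subgroup (Gal w)} (hN : TwoExtension N)
    (hd : Dihedral N) : Splits N (l : OK) := by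
  intro p hp ι hlt
  have e : ι (emb w (l : OK)) = (l : PadicAlgCl p) := by
    rw [emb_eq' hw, map_natCast, map_natCast]
  rw [e] at hlt
  have hpl : p = l := by
    have h1 : (l : PadicAlgCl p) = algebraMap ℚ_[p] (PadicAlgCl p) ((l : ℤ) : ℚ_[p]) := by
      rw [Int.cast_natCast, map_natCast]
    rw [h1, PadicAlgCl.norm_extends, Padic.norm_intCast_lt_one_iff] at hlt
    exact (Nat.prime_dvd_prime_iff_eq hp.out hl).1 (by exact_mod_cast hlt)
  subst hpl
  refine Pool.Agent.J6H2.TW.dih_split hw hN.isOpen ?_ hd ι (hN.unramified p ι (by rintro rfl; omega))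
  intro n hn
  have h1 := jac hl h8 h7
  rw [← jacobiSym.legendreSym.to_jacobiSym, legendreSym.eq_neg_one_iff] at h1
  apply h1
  refine ⟨((2 * n - 1 : ℤ) : ZMod p), ?_⟩
  have h2 : ((n ^ 2 - n + 2 : ℤ) : ZMod p) = 0 := (ZMod.intCast_zmod_eq_zero_iff_dvd _ _).2 hn
  push_cast at h2 ⊢
  linear_combination -4 * h2

theorem result :
    (∀ (n : ℕ) (q : Fin n → OK) (D s : OK), Good q D → ∀ (i : ℕ) (t : Fin (2 * i + 1) → Triple)
      (d : Fin (2 * i + 1) → OK), (∀ k, (t k).Adm ∧ IsCoprime (d k) 2) → ∏ k, d k = D * s ^ 2 →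
      (∀ k, Fine (t k) ∧ NonSquare (t k) D) → ∀ w : QBar, w ^ 2 = w - 2 →
      ∀ N H : Subgroup (Gal w), TwoExtension N → N ≤ H → (∀ j, Splits N (q j)) →
      (∀ k π, BadPrime (t k) π → Splits N π) →
      ∀ ι₁ ι₂ : QBar →ₐ[ℚ] PadicAlgCl 2, ‖ι₁ w‖ < 1 → ‖ι₂ (1 - w)‖ < 1 →
        ∃ (e : ∀ k, Fin 2 → ℕ → Pts w (t k) (d k))
          (ρ : Fin (2 * i + 1) → Gal w →* Matrix (Fin 2) (Fin 2) ℤ_[2]),
          (∀ k, Frame ι₁ ι₂ (t k) (d k) (e k) (ρ k)) ∧
          SelmerZero H ι₁ ι₂ i (tens ρ (cyc w) i)) ∧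
    (tCM.Adm ∧ (∀ π, ¬ BadPrime tCM π) ∧
      ∀ l : ℕ, l.Prime → l % 8 = 5 → (l % 7 = 3 ∨ l % 7 = 5 ∨ l % 7 = 6) →
        ∀ D : OK, D = l ∨ D = -l → Good (fun _ : Fin 1 => (l : OK)) D ∧
          ∀ w : QBar, w ^ 2 = w - 2 → ∀ N : Subgroup (Gal w), TwoExtension N → Dihedral N →
            Splits N (l : OK)) := by
  refine ⟨?_, tCM_adm, fun _ => tCM_bad, ?_⟩
  · intro n q D s hg i t d ht hprod hbad w hw N H hN hNH hq hπ ι₁ ι₂ h₁ h₂
    exact main hg ht hprod hbad hw hN hNH hq hπ ι₁ ι₂ h₁ h₂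
  · intro l hl h8 h7 D hD
    exact ⟨good_l hl h8 h7 hD, fun w hw N hN hdih => splits_l hl h8 h7 hw hN hdih⟩

end Pool.Agent.Results.MP_787500_nt.TowersProducts
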